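import Pool.Agent.Helper80.HY.FewLevel

/-!
# HY-02: Lemma U: a set which meets few cosets in large balls is a union of `t` bounded sets

PROOF. Claim by induction on `m`: there are finite sets `S_m ∋ 1` and `B_m` such that for every `W` there are sets `A i`, `i : Fin t`, which are
`S`-bounded by `B_m`, such that every `x ∈ W` is in some `A i` or there is a finite set `Q ⊆ seen L W S_m x` with `Q.card = m + 1`.
`m = 0`: `S_0 = {1}`, `B_0 = ∅`, `A i = ∅` (`bdd_empty`), `Q = {x L}`.
Step: let `F = S' ∪ S'⁻¹` with `S' = S ∪ {s * b * s' | s, s' ∈ S, b ∈ B_m}` and take `S_(m+1)`, `D` from `few_level` with `S₀ = S_m`; given `W` let `A i` be the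
sets of the induction hypothesis and `A' i` those of `few_level`. The sets `A i ∪ A' i` are `S`-bounded by `suE S B_m D` (`bdd_union ⊤ S`). If `x ∈ W` is in no `A i` and in no
`A' i`: `seen L W S_m x ≠ seen L W S_(m+1) x`, the first set is contained in the second one (`S_m ⊆ S_(m+1)`), so there is a further coset and `insert`
gives `Q.card = m + 2`.
End: `m = q`, `D' = S_q`: `Few L W S_q q` excludes the second alternative.
-/

set_option autoImplicit false

namespace Pool.Agent.Helper80.HY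

open Pool.Agent.Helper65.TH Pool.Agent.Helper65.GN

variable {G : Type*} [Group G]

private theorem seen_mono (L : Subgroup G) (W : Set G) {D D' : Finset G} (hD : D ⊆ D') (x : G) :
    seen L W D x ⊆ seen L W D' x := by
  rintro c ⟨y, hy, hyD, hc⟩
  exact ⟨y, hy, hD hyD, hc⟩

private theorem claimU (L : Subgroup G) {t : ℕ} (h : AsdimLT L t) (S : Finset G) (m : ℕ) :
    ∃ Sm B : Finset G, (1 : G) ∈ Sm ∧ ∀ W : Set G, ∃ A : Fin t → Set G,
      (∀ i, Bdd (S : Set G) (A i) B) ∧
      ∀ x ∈ W, (∃ i, x ∈ A i) ∨ ∃ Q : Finset (G ⧸ L), (∀ c ∈ Q, c ∈ seen L W Sm x) ∧ Q.card = m + 1 := by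
  classical
  induction m with
  | zero =>
    refine ⟨{1}, ∅, Finset.mem_singleton_self _, fun W => ⟨fun _ => ∅, fun _ => bdd_empty _ _, ?_⟩⟩
    intro x hx
    refine Or.inr ⟨{(x : G ⧸ L)}, ?_, by simp⟩
    intro c hc
    rw [Finset.mem_singleton] at hc
    exact ⟨x, hx, by simp, hc.symm⟩
  | succ m ih =>
    obtain ⟨S0, B, h1, hW⟩ := ih
    let S' : Finset G := S ∪ Finset.image₂ (fun a b => a * b) (Finset.image₂ (fun a b => a * b) S B) S
    let F : Finset G := S' ∪ S'.image (fun a => a⁻¹)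
    have hFs : ∀ f ∈ F, f⁻¹ ∈ F := by
      intro f hf
      rcases Finset.mem_union.1 hf with hf | hf
      · exact Finset.mem_union_right _ (Finset.mem_image_of_mem _ hf)
      · obtain ⟨g, hg, rfl⟩ := Finset.mem_image.1 hf
        rw [inv_inv]
        exact Finset.mem_union_left _ hg
    have hSF : S ⊆ F := fun f hf => Finset.mem_union_left _ (Finset.mem_union_left _ hf)
    have hF1 : ∀ f ∈ S, ∀ e ∈ B, e ∈ (⊤ : Subgroup G) → ∀ f' ∈ S, f * e * f' ∈ F := by
      intro f hf e he _ f' hf'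
      exact Finset.mem_union_left _ (Finset.mem_union_right _ (Finset.mem_image₂_of_mem
        (Finset.mem_image₂_of_mem hf he) hf'))
    obtain ⟨S1, D, hS, hL⟩ := few_level L h S0 F h1 hFs
    refine ⟨S1, suE S B D, hS h1, fun W => ?_⟩
    obtain ⟨A, hA, hA'⟩ := hW W
    obtain ⟨A2, hB, hB'⟩ := hL W
    refine ⟨fun i => A i ∪ A2 i, fun i => bdd_union ⊤ S (fun _ _ => Subgroup.mem_top _) (A i) (A2 i) B F D
      (hA i) (hB i) hSF hF1, ?_⟩
    intro x hx
    rcases hA' x hx with ⟨i, hi⟩ | ⟨Q, hQ, hQc⟩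
    · exact Or.inl ⟨i, Or.inl hi⟩
    · by_cases hse : seen L W S0 x = seen L W S1 x
      · obtain ⟨i, hi⟩ := hB' x hx hse
        exact Or.inl ⟨i, Or.inr hi⟩
      · right
        have hsub : seen L W S0 x ⊆ seen L W S1 x := seen_mono L W hS x
        obtain ⟨c, hc1, hc0⟩ : ∃ c ∈ seen L W S1 x, c ∉ seen L W S0 x := by
          by_contra hcon
          push Not at hcon
          exact hse (Set.Subset.antisymm hsub hcon)
        have hcQ : c ∉ Q := fun hcQ => hc0 (hQ c hcQ)
        refine ⟨insert c Q, ?_, by rw [Finset.card_insert_of_notMem hcQ, hQc]⟩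
        intro c' hc'
        rcases Finset.mem_insert.1 hc' with rfl | hc'
        · exact hc1
        · exact hsub (hQ c' hc')

theorem few_families (L : Subgroup G) {t : ℕ} (h : AsdimLT L t) (S : Finset G) (q : ℕ) :
    ∃ D E : Finset G, ∀ W : Set G, Few L W D q → ∃ A : Fin t → Set G,
      (∀ x ∈ W, ∃ i, x ∈ A i) ∧ ∀ i, Bdd (S : Set G) (A i) E := by
  obtain ⟨Sq, B, -, hW⟩ := claimU L h S q
  refine ⟨Sq, B, fun W hF => ?_⟩
  obtain ⟨A, hA, hA'⟩ := hW W
  refine ⟨A, fun x hx => ?_, hA⟩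
  rcases hA' x hx with hi | ⟨Q, hQ, hQc⟩
  · exact hi
  · have := hF x Q hQ
    omega

end Pool.Agent.Helper80.HY
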