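import Pool.Agent.Helper80.HY.Norm

/-!
# HY-04: asymptotic dimension of the leaves

PROOF. Let `F` be a finite subset of `L` (the group is the type `L`) and `a` such that `NearT a (f x) (f (x * g))` for all `g ∈ F`, `x` (maximum over `F` of the constants of `hf.near`,
`near_mono`). Put `h = a + 1`, `i x = slab f h x`, `U x = up (f x) ((i x + 1) * h + a)`. Colour `x` by the parities of `i x` and of the `d` coordinates of `U x`:
`bits x : Option (Fin d) → Bool` or `Fin (d + 1) → Bool`, `2 ^ (d + 1)` colours (`Fintype.equivFinOfCardEq`, `Fintype.card_fun`/`simp`). Let `y = x * g`, `g ∈ F`, have the same colour. The levels of `f x`, `f y` differ by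
at most `a < h` (`near_level`), so `|i x - i y| ≤ 1`, so `i x = i y` (same parity). `(f x).1 < (i x + 1) * h`, so by `near_up` with `m = (i x + 1) * h + a` the positions
`U x`, `U y` differ by at most `1` in every coordinate and have the same parities: `U x = U y`. So `i` and `U` are constant along chains of one colour, and
for the end `y` of a chain from `x`: `NearT (h + a) (f x) (f y)` with `m = (i x + 1) * h + a` (`i x * h ≤ (f x).1`). So `x⁻¹ * y` is in the finite set
`{g ∈ L | ∃ x, NearT (h + a) (f x) (f (x * g))}` (as a finite subset of the type `L`: preimage of `(hf.fin _).toFinset` under the injection `L.subtype`).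
-/

set_option autoImplicit false

namespace Pool.Agent.Helper80.HY

open Pool.Agent.Helper65.TH

variable {G : Type*} [Group G] {d : ℕ}

private theorem asd_parity {u v : ℤ} (h1 : |u - v| ≤ 1) (h2 : Even u ↔ Even v) : u = v := by
  rw [abs_le] at h1
  by_contra hne
  rcases Int.even_or_odd u with hu | hu
  · have hv := h2.1 hu
    obtain ⟨k, hk⟩ := hu
    obtain ⟨l, hl⟩ := hv
    omega
  · have hv : Odd v := by
      rw [← Int.not_even_iff_odd] at hu ⊢
      exact fun h => hu (h2.2 h)
    obtain ⟨k, hk⟩ := hu
    obtain ⟨l, hl⟩ := hv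
    omega

private theorem asd_bounds (l : ℤ) (h : ℕ) (hh : 0 < h) :
    l / (h : ℤ) * h ≤ l ∧ l < (l / (h : ℤ) + 1) * h := by
  have hz : (0 : ℤ) < h := by exact_mod_cast hh
  constructor
  · exact Int.ediv_mul_le l hz.ne'
  · exact Int.lt_ediv_add_one_mul_self l hz

private theorem asd_slab {l l' : ℤ} {h a : ℕ} (hh : a < h) (hl : |l - l'| ≤ a) :
    |l / (h : ℤ) - l' / (h : ℤ)| ≤ 1 := by
  obtain ⟨h1, h2⟩ := asd_bounds l h (by omega)
  obtain ⟨h3, h4⟩ := asd_bounds l' h (by omega)
  have hz : (0 : ℤ) < h := by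
    have : 0 < h := by omega
    exact_mod_cast this
  have ha : (a : ℤ) < h := by exact_mod_cast hh
  rw [abs_le] at hl ⊢
  constructor
  · by_contra hc
    have h5 : l / (h : ℤ) + 2 ≤ l' / (h : ℤ) := by omega
    have h6 := mul_le_mul_of_nonneg_right h5 hz.le
    nlinarith
  · by_contra hc
    have h5 : l' / (h : ℤ) + 2 ≤ l / (h : ℤ) := by omega
    have h6 := mul_le_mul_of_nonneg_right h5 hz.le
    nlinarith

open Classical in
theorem Emb.asdim {L : Subgroup G} {f : G → Tile d} (hf : Emb L f) : AsdimLT L (2 ^ (d + 1)) := by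
  intro F
  choose a0 ha0 using fun g : L => hf.near g.1 g.2
  obtain ⟨a, ha⟩ : ∃ a : ℕ, ∀ g ∈ F, ∀ x : G, NearT a (f x) (f (x * g)) :=
    ⟨F.sup a0, fun g hg x => near_mono (Finset.le_sup hg) (ha0 g x)⟩
  let h : ℕ := a + 1
  let i : L → ℤ := fun x => slab f h x
  let U : L → Fin d → ℤ := fun x => up (f x) ((i x + 1) * h + a)
  let c : L → Option (Fin d) → Bool := fun x o =>
    match o with
    | none => decide (Even (i x))
    | some j => decide (Even (U x j))
  let e : (Option (Fin d) → Bool) ≃ Fin (2 ^ (d + 1)) := Fintype.equivFinOfCardEq (by simp)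
  have hb : ∀ x : L, i x * h ≤ (f x).1 ∧ (f x).1 < (i x + 1) * h := fun x =>
    asd_bounds (f x).1 h (by omega)
  have hstep : ∀ x y : L, x⁻¹ * y ∈ F → c x = c y → i y = i x ∧ U y = U x := by
    intro x y hxy hc
    have hn : NearT a (f x) (f y) := by
      have := ha _ hxy x
      have e1 : (x : G) * ((x⁻¹ * y : L) : G) = y := by
        rw [Subgroup.coe_mul, Subgroup.coe_inv]
        group
      rwa [e1] at this
    have hi : i y = i x := by
      refine (asd_parity (asd_slab (by omega) (near_level hn)) ?_).symm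
      have h1 := congrFun hc none
      simp only [c] at h1
      exact decide_eq_decide.1 h1
    refine ⟨hi, ?_⟩
    funext j
    have hm : (f x).1 + a ≤ (i x + 1) * h + a := by
      have := (hb x).2
      omega
    have h2 := (near_up hn hm).2.2
    rw [nrm_le_iff] at h2
    have h3 := h2 j
    have h4 := congrFun hc (some j)
    simp only [c] at h4
    have h5 := decide_eq_decide.1 h4
    refine (asd_parity ?_ h5).symm
    simp only [U, hi]
    rw [Pi.sub_apply] at h3
    exact_mod_cast h3
  refine ⟨(hf.fin (h + a)).toFinset.preimage L.subtype L.subtype_injective.injOn,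
    fun k => {x | e (c x) = k}, fun x => ⟨e (c x), rfl⟩, ?_⟩
  intro k x hx y hxy
  have hR : c y = c x ∧ i y = i x ∧ U y = U x := by
    refine hxy.rec' (R := fun z => c z = c x ∧ i z = i x ∧ U z = U x) ⟨rfl, rfl, rfl⟩ ?_
    intro z w _ hz hs hw
    have hcw : c w = c x := e.injective (by
      have h1 : e (c w) = k := hw
      have h2 : e (c x) = k := hx
      rw [h1, h2])
    have h3 := hstep z w hs (by rw [hz.1, hcw])
    exact ⟨hcw, h3.1.trans hz.2.1, h3.2.trans hz.2.2⟩
  obtain ⟨-, hi, hU⟩ := hR
  rw [Finset.mem_preimage, Set.Finite.mem_toFinset]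
  refine ⟨(x⁻¹ * y).2, x, ?_⟩
  have e1 : (x : G) * L.subtype (x⁻¹ * y) = y := by
    simp
  rw [e1]
  have hx1 := hb x
  have hy1 := hb y
  rw [hi] at hy1
  refine ⟨(i x + 1) * h + a, ?_, ?_, ?_, ?_, ?_⟩
  · have := hx1.2
    omega
  · have := hx1.1
    push_cast
    nlinarith
  · have := hy1.2
    omega
  · have := hy1.1
    push_cast
    nlinarith
  · have e2 : up (f x) ((i x + 1) * h + a) - up (f y) ((i x + 1) * h + a) = 0 := by
      have : U y = up (f y) ((i x + 1) * h + a) := by
        simp only [U, hi]
      rw [← this, hU, sub_self]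
    rw [e2, nrm_le_iff]
    intro j
    simp

end Pool.Agent.Helper80.HY
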