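import Pool.Agent.Helper80.HY.Norm

/-!
# HY-08: number of points of a coset below a position

PROOF. `K = (hf.fin 0).toFinset`, `κ = K.card`: if `x`, `x'` are in the same coset and `f x = f x'` then `NearT 0 (f x) (f x')` (`near_refl`), so `x⁻¹ * x' ∈ K`. Let `X` be the set. For `x ∈ X` let `j = m - (f x).1 ∈ {0, ..., k}` and `v = (f x).2`;
`up (f x) m i = v i / 2 ^ j ∈ [u i - R, u i + R]` (`nrm_le_iff`), so `0 ≤ v i - 2 ^ j * (u i - R) < 2 ^ j * (2 * R + 1) ≤ (2 * R + 1) * 2 ^ k`. So `φ x = (j, fun i => v i - 2 ^ j * (u i - R))` lies (as natural numbers) in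
`Fin (k + 1) × (Fin d → Fin ((2 * R + 1) * 2 ^ k))`, which has `(k + 1) * ((2 * R + 1) * 2 ^ k) ^ d` elements, and `φ x` determines `f x`. For every value `c` of `φ` on `X` choose a point `x_c ∈ X` with `φ x_c = c`; then `X ⊆ ⋃_c x_c K`: a finite set with at most
`(number of c) * κ` elements (`Finset.card_biUnion_le`, `Finset.card_image_le`). `Set.Finite.subset`, `Set.ncard_le_ncard`, `Set.ncard_coe_finset`.
-/

set_option autoImplicit false

namespace Pool.Agent.Helper80.HY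

variable {G : Type*} [Group G] {d : ℕ}

/-- the tiles with level in `[m - k, m]` whose ancestor at the level `m` is `R`-close to `u` -/
private noncomputable def tset (m : ℤ) (k R : ℕ) (u : Fin d → ℤ) : Finset (Tile d) :=
  (Finset.Icc (m - k) m).biUnion fun l =>
    (Fintype.piFinset fun i =>
      Finset.Ico (2 ^ (m - l).toNat * (u i - R)) (2 ^ (m - l).toNat * (u i + R + 1))).image
        fun v => (l, v)

private theorem card_tset (m : ℤ) (k R : ℕ) (u : Fin d → ℤ) :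
    (tset m k R u).card ≤ (k + 1) * ((2 * R + 1) * 2 ^ k) ^ d := by
  classical
  unfold tset
  refine le_trans (Finset.card_biUnion_le_card_mul _ _ (((2 * R + 1) * 2 ^ k) ^ d) ?_) ?_
  · intro l hl
    rw [Finset.mem_Icc] at hl
    refine le_trans Finset.card_image_le ?_
    rw [Fintype.card_piFinset]
    have h1 : ∀ i : Fin d, (Finset.Ico (2 ^ (m - l).toNat * (u i - (R : ℤ)))
        (2 ^ (m - l).toNat * (u i + R + 1))).card ≤ (2 * R + 1) * 2 ^ k := by
      intro i
      rw [Int.card_Ico]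
      have h2 : (2 : ℤ) ^ (m - l).toNat * (u i + R + 1) - 2 ^ (m - l).toNat * (u i - R) =
          (((2 * R + 1) * 2 ^ (m - l).toNat : ℕ) : ℤ) := by
        push_cast
        ring
      rw [h2, Int.toNat_natCast]
      exact Nat.mul_le_mul_left _ (Nat.pow_le_pow_right (by norm_num) (by omega))
    calc _ ≤ ∏ _i : Fin d, ((2 * R + 1) * 2 ^ k) := Finset.prod_le_prod' fun i _ => h1 i
      _ = _ := by simp
  · refine Nat.mul_le_mul_right _ ?_
    rw [Int.card_Icc]
    omega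

private theorem mem_tset {m : ℤ} {k R : ℕ} {u : Fin d → ℤ} {p : Tile d} (h1 : m - k ≤ p.1)
    (h2 : p.1 ≤ m) (h3 : nrm (up p m - u) ≤ R) : p ∈ tset m k R u := by
  classical
  unfold tset
  rw [Finset.mem_biUnion]
  refine ⟨p.1, Finset.mem_Icc.2 ⟨h1, h2⟩, ?_⟩
  rw [Finset.mem_image]
  refine ⟨p.2, ?_, rfl⟩
  rw [Fintype.mem_piFinset]
  intro i
  have h4 := (nrm_le_iff _ _).1 h3 i
  simp only [Pi.sub_apply, up] at h4
  rw [abs_le] at h4
  have hpos : (0 : ℤ) < 2 ^ (m - p.1).toNat := by positivity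
  rw [Finset.mem_Ico]
  constructor
  · have h5 : u i - R ≤ p.2 i / 2 ^ (m - p.1).toNat := by linarith [h4.1]
    have h6 := (Int.le_ediv_iff_mul_le hpos).1 h5
    linarith [mul_comm (u i - (R : ℤ)) (2 ^ (m - p.1).toNat)]
  · have h5 : p.2 i / 2 ^ (m - p.1).toNat < u i + R + 1 := by linarith [h4.2]
    have h6 := (Int.ediv_lt_iff_lt_mul hpos).1 h5
    linarith [mul_comm (u i + (R : ℤ) + 1) (2 ^ (m - p.1).toNat)]

theorem count {L : Subgroup G} {f : G → Tile d} (hf : Emb L f) :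
    ∃ κ : ℕ, ∀ (γ : G ⧸ L) (m : ℤ) (k R : ℕ) (u : Fin d → ℤ),
      {x : G | (x : G ⧸ L) = γ ∧ m - k ≤ (f x).1 ∧ (f x).1 ≤ m ∧ nrm (up (f x) m - u) ≤ R}.Finite ∧
      {x : G | (x : G ⧸ L) = γ ∧ m - k ≤ (f x).1 ∧ (f x).1 ≤ m ∧ nrm (up (f x) m - u) ≤ R}.ncard ≤
        κ * ((k + 1) * ((2 * R + 1) * 2 ^ k) ^ d) := by
  classical
  refine ⟨(hf.fin 0).toFinset.card, fun γ m k R u => ?_⟩
  let F : Tile d → Finset G := fun t =>
    if h : ∃ x₀ : G, (x₀ : G ⧸ L) = γ ∧ f x₀ = t then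
      (hf.fin 0).toFinset.image fun g => h.choose * g
    else ∅
  have hF : ∀ t, (F t).card ≤ (hf.fin 0).toFinset.card := by
    intro t
    simp only [F]
    split_ifs with h
    · exact Finset.card_image_le
    · simp
  have hsub : {x : G | (x : G ⧸ L) = γ ∧ m - k ≤ (f x).1 ∧ (f x).1 ≤ m ∧
      nrm (up (f x) m - u) ≤ R} ⊆ ((tset m k R u).biUnion F : Finset G) := by
    intro x hx
    obtain ⟨h1, h2, h3, h4⟩ := hx
    rw [Finset.mem_coe, Finset.mem_biUnion]
    refine ⟨f x, mem_tset h2 h3 h4, ?_⟩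
    have h : ∃ x₀ : G, (x₀ : G ⧸ L) = γ ∧ f x₀ = f x := ⟨x, h1, rfl⟩
    have e1 : F (f x) = (hf.fin 0).toFinset.image fun g => h.choose * g := by
      simp only [F]
      rw [dif_pos h]
    rw [e1, Finset.mem_image]
    refine ⟨h.choose⁻¹ * x, ?_, by group⟩
    rw [Set.Finite.mem_toFinset]
    refine ⟨?_, h.choose, ?_⟩
    · exact QuotientGroup.eq.1 (h.choose_spec.1.trans h1.symm)
    · rw [mul_inv_cancel_left, h.choose_spec.2]
      exact near_refl _
  refine ⟨Set.Finite.subset (Finset.finite_toSet _) hsub, ?_⟩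
  refine le_trans (Set.ncard_le_ncard hsub (Finset.finite_toSet _)) ?_
  rw [Set.ncard_coe_finset]
  refine le_trans (Finset.card_biUnion_le_card_mul _ _ _ fun t _ => hF t) ?_
  rw [mul_comm]
  exact Nat.mul_le_mul_left _ (card_tset m k R u)

end Pool.Agent.Helper80.HY
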