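import Pool.Agent.Helper80.HY.BlkFin
import Pool.Agent.Helper80.HY.Count

/-!
# HY-09: number of points below a block

PROOF. Take `κ` from `count hf`. Let `par^[i] (blk x) = b`, `i ≤ k`. By `iter_par`: `(x : G ⧸ L) = b.1` and `slab x + 2 + i = b.2.1`. Put `m = b.2.1 * h + a`, `K = (k + 2) * h + a`. `slab x * h ≤ (f x).1 < (slab x + 1) * h`, so `m - K ≤ (f x).1 ≤ m`.
`iter_par_close` and `nrm_sub_comm`: `nrm (up (f x) m - b.2.2) ≤ 3`. So the set is contained in the set of `count` with `γ = b.1`, `m`, `K`, `R = 3`, `u = b.2.2`: finite with at most `κ * ((K + 1) * (7 * 2 ^ K) ^ d)` elements.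
`K + 1 ≤ (2 * h + a + 1) * (k + 1) ≤ (2 * h + a + 1) * 2 ^ k` and `(7 * 2 ^ K) ^ d = (7 * 2 ^ (2 * h + a)) ^ d * (2 ^ (h * d)) ^ k`. `C = κ * ((2 * h + a + 1) * (7 * 2 ^ (2 * h + a)) ^ d)`, `e = 2 * 2 ^ (h * d)`.
-/

set_option autoImplicit false

namespace Pool.Agent.Helper80.HY

variable {G : Type*} [Group G] {d : ℕ}

omit [Group G] in
private theorem lev_le' (f : G → Tile d) (h : ℕ) (h2 : 2 ≤ h) (x : G) (c : ℤ) (hc : 1 ≤ c) (a : ℕ) :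
    (f x).1 ≤ (slab f h x + c) * h + a := by
  have hh : (0 : ℤ) < (h : ℤ) := by exact_mod_cast (by omega : 0 < h)
  have h1 : (f x).1 < ((f x).1 / (h : ℤ) + 1) * (h : ℤ) := Int.lt_ediv_add_one_mul_self _ hh
  have h3 : ((f x).1 / (h : ℤ) + 1) * (h : ℤ) ≤ (slab f h x + c) * h := by
    unfold slab
    apply mul_le_mul_of_nonneg_right _ hh.le
    linarith
  have h4 : (0 : ℤ) ≤ a := Int.natCast_nonneg a
  linarith

private theorem bound (κ h a k : ℕ) :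
    κ * (((k + 2) * h + a + 1) * ((2 * 3 + 1) * 2 ^ ((k + 2) * h + a)) ^ d) ≤
      κ * ((2 * h + a + 1) * (7 * 2 ^ (2 * h + a)) ^ d) * (2 * 2 ^ (h * d)) ^ k := by
  have h1 : (2 * 3 + 1) * 2 ^ ((k + 2) * h + a) = 7 * 2 ^ (2 * h + a) * 2 ^ (h * k) := by
    have h2 : (k + 2) * h + a = (2 * h + a) + h * k := by ring
    rw [h2, pow_add]
    ring
  have h3 : (k + 2) * h + a + 1 ≤ (2 * h + a + 1) * 2 ^ k := by
    have h4 : k + 1 ≤ 2 ^ k := Nat.lt_two_pow_self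
    have h5 : (k + 2) * h + a + 1 ≤ (2 * h + a + 1) * (k + 1) := by nlinarith [Nat.zero_le (h * k), Nat.zero_le (a * k)]
    exact le_trans h5 (Nat.mul_le_mul_left _ h4)
  have h6 : ((2 : ℕ) ^ (h * k)) ^ d = (2 ^ (h * d)) ^ k := by
    rw [← pow_mul, ← pow_mul]
    congr 1
    ring
  rw [h1, mul_pow (7 * 2 ^ (2 * h + a)) (2 ^ (h * k)) d, h6, mul_pow 2 (2 ^ (h * d)) k]
  calc κ * (((k + 2) * h + a + 1) * ((7 * 2 ^ (2 * h + a)) ^ d * (2 ^ (h * d)) ^ k))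
      ≤ κ * (((2 * h + a + 1) * 2 ^ k) * ((7 * 2 ^ (2 * h + a)) ^ d * (2 ^ (h * d)) ^ k)) :=
        Nat.mul_le_mul_left _ (Nat.mul_le_mul_right _ h3)
    _ = κ * ((2 * h + a + 1) * (7 * 2 ^ (2 * h + a)) ^ d) * (2 ^ k * (2 ^ (h * d)) ^ k) := by ring

theorem blk_card {L : Subgroup G} {f : G → Tile d} (hf : Emb L f) (h a : ℕ) (h2 : 2 ≤ h)
    (r : Var L d → ℕ) (hr : ∀ v, 2 ^ h ≤ r v ∧ r v < 2 * 2 ^ h) :
    ∃ C e : ℕ, ∀ (k : ℕ) (b : Var L d),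
      {x | ∃ i ≤ k, (par L h r)^[i] (blk L f h a r x) = b}.Finite ∧
      {x | ∃ i ≤ k, (par L h r)^[i] (blk L f h a r x) = b}.ncard ≤ C * e ^ k := by
  obtain ⟨κ, hκ⟩ := count hf
  refine ⟨κ * ((2 * h + a + 1) * (7 * 2 ^ (2 * h + a)) ^ d), 2 * 2 ^ (h * d), ?_⟩
  intro k b
  have hsub : {x | ∃ i ≤ k, (par L h r)^[i] (blk L f h a r x) = b} ⊆
      {x : G | (x : G ⧸ L) = b.1 ∧ (b.2.1 * h + a) - (((k + 2) * h + a : ℕ) : ℤ) ≤ (f x).1 ∧
        (f x).1 ≤ b.2.1 * h + a ∧ nrm (up (f x) (b.2.1 * h + a) - b.2.2) ≤ 3} := by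
    rintro x ⟨i, hi, hb⟩
    have e1 := (iter_par L h r (blk L f h a r x) i).1
    have e2 := (iter_par L h r (blk L f h a r x) i).2
    have e3 := iter_par_close L f h a h2 r hr x i
    rw [hb] at e1 e2 e3
    have e1' : b.1 = (x : G ⧸ L) := e1
    have e2' : b.2.1 = slab f h x + 2 + i := e2
    have hi0 : (0 : ℤ) ≤ (i : ℤ) := Int.natCast_nonneg i
    have hik : (i : ℤ) ≤ (k : ℤ) := by exact_mod_cast hi
    have hh : (0 : ℤ) < (h : ℤ) := by exact_mod_cast (by omega : 0 < h)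
    refine ⟨e1'.symm, ?_, ?_, ?_⟩
    · have h1 : (f x).1 / (h : ℤ) * (h : ℤ) ≤ (f x).1 := Int.ediv_mul_le _ hh.ne'
      have h3 : (i : ℤ) * (h : ℤ) ≤ (k : ℤ) * (h : ℤ) := mul_le_mul_of_nonneg_right hik hh.le
      have h4 : slab f h x * (h : ℤ) ≤ (f x).1 := h1
      rw [e2']
      push_cast
      nlinarith
    · rw [e2']
      have h1 := lev_le' f h h2 x (2 + i) (by linarith) a
      rwa [← add_assoc] at h1
    · rw [nrm_sub_comm, e2']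
      exact e3
  obtain ⟨hfin, hcard⟩ := hκ b.1 (b.2.1 * h + a) ((k + 2) * h + a) 3 b.2.2
  refine ⟨hfin.subset hsub, ?_⟩
  exact le_trans (Set.ncard_le_ncard hsub hfin) (le_trans hcard (bound κ h a k))

end Pool.Agent.Helper80.HY
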