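import Pool.Agent.Helper80.HY.BlkCard

/-!
# HY-12: the block structure

PROOF. `choose E hE using blk_fin hf h a h2 r hr` (as a function of `k`), `C`, `e` from `blk_card`. `bl = blk L f h a r`, `p = par L h r`, `lev b = b.2.1`, `cos b = b.1`; `cos_bl`, `cos_p`, `lev_p` by definition; `step` from `blk_step` (the hypothesis `x ∈ V` is `¬ bad ..`).
-/

set_option autoImplicit false

namespace Pool.Agent.Helper80.HY

variable {G : Type*} [Group G] {d : ℕ}

theorem exists_blk {L : Subgroup G} {f : G → Tile d} (hf : Emb L f) (T : Finset G)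
    (hT : ∀ s ∈ T, s ∈ L) (h a : ℕ) (hah : a < h) (h2 : 2 ≤ h)
    (hTa : ∀ s ∈ T, ∀ x, NearT a (f x) (f (x * s)))
    (r : Var L d → ℕ) (hr : ∀ v, 2 ^ h ≤ r v ∧ r v < 2 * 2 ^ h) :
    Nonempty (Blk L T {x | ¬ bad L f h a r x} (Var L d)) := by
  obtain ⟨C, e, hC⟩ := blk_card hf h a h2 r hr
  choose E hE using blk_fin hf h a h2 r hr
  exact ⟨{
    bl := blk L f h a r
    p := par L h r
    lev := fun b => b.2.1
    cos := fun b => b.1
    E := E
    C := C
    e := e
    cos_bl := fun _ => rfl
    cos_p := fun _ => rfl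
    lev_p := fun _ => rfl
    step := fun x hx s hs hxs =>
      blk_step L f h a hah h2 r hr x s (hT s hs) (hTa s hs x) hx hxs
    hE := fun k x y i hi j hj hij => hE k x y i hi j hj hij
    fin := fun k b => (hC k b).1
    card := fun k b => (hC k b).2 }⟩

end Pool.Agent.Helper80.HY
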