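import Pool.Agent.Helper80.HY.BlkStep

/-!
# HY-07: common ancestors of blocks

PROOF. `iter_par`: induction on `i` (`Function.iterate_succ_apply'`). `iter_par_close`: induction on `i`: for `i = 0` the position is `carve (pos x (slab x + 1))`, so this is the second part of `carve_close` with
`m = (slab x + 1) * h + a` (`(f x).1 < (slab x + 1) * h`, `Int.lt_ediv_add_one_mul_self`), `m + h = (slab x + 2) * h + a`; step: first part of `carve_close` with `u' =` the old position (`nrm_sub_comm`).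
`blk_fin`: let `par^[i] (blk x) = par^[j] (blk y)`. The first components give `x⁻¹ * y ∈ L` (`QuotientGroup.eq`), the second ones `slab x + 2 + i = slab y + 2 + j =: J`, the third ones with `iter_par_close` (twice, `nrm_triangle`, `nrm_sub_comm`)
`nrm (up (f x) M - up (f y) M) ≤ 6 ≤ 2 ^ 3` with `M = J * h + a`, so by `close_up` the positions at `M + 3` differ by at most `1`. `M + 3 ≤ (f x).1 + b` with `b = (k + 2) * h + a + 3`, since `slab x * h ≤ (f x).1` and `i ≤ k`, and the same for `y`.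
So `NearT b (f x) (f y)` and `x⁻¹ * y` is in the finite set of `hf.fin b` (`f (x * (x⁻¹ * y)) = f y`). `E` = the finset of that set.
-/

set_option autoImplicit false

namespace Pool.Agent.Helper80.HY

variable {G : Type*} [Group G] {d : ℕ}

theorem iter_par (L : Subgroup G) (h : ℕ) (r : Var L d → ℕ) (b : Var L d) (i : ℕ) :
    ((par L h r)^[i] b).1 = b.1 ∧ ((par L h r)^[i] b).2.1 = b.2.1 + i := by
  induction i with
  | zero => exact ⟨rfl, by simp⟩
  | succ i ih =>
    rw [Function.iterate_succ_apply']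
    refine ⟨ih.1, ?_⟩
    change ((par L h r)^[i] b).2.1 + 1 = _
    rw [ih.2]
    push_cast
    ring

private theorem lev_le (f : G → Tile d) (h : ℕ) (h2 : 2 ≤ h) (x : G) (c : ℤ) (hc : 1 ≤ c) (a : ℕ) :
    (f x).1 ≤ (slab f h x + c) * h + a := by
  have hh : (0 : ℤ) < (h : ℤ) := by exact_mod_cast (by omega : 0 < h)
  have h1 : (f x).1 < ((f x).1 / (h : ℤ) + 1) * (h : ℤ) := Int.lt_ediv_add_one_mul_self _ hh
  have h3 : ((f x).1 / (h : ℤ) + 1) * (h : ℤ) ≤ (slab f h x + c) * h := by
    unfold slab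
    apply mul_le_mul_of_nonneg_right _ hh.le
    linarith
  have h4 : (0 : ℤ) ≤ a := Int.natCast_nonneg a
  linarith

theorem iter_par_close (L : Subgroup G) (f : G → Tile d) (h a : ℕ) (h2 : 2 ≤ h)
    (r : Var L d → ℕ) (hr : ∀ v, 2 ^ h ≤ r v ∧ r v < 2 * 2 ^ h) (x : G) (i : ℕ) :
    nrm (((par L h r)^[i] (blk L f h a r x)).2.2 - up (f x) ((slab f h x + 2 + i) * h + a)) ≤ 3 := by
  induction i with
  | zero =>
    have hc := (carve_close (f x) (m := (slab f h x + 1) * h + a) (h := h)
      (lev_le f h h2 x 1 le_rfl a) h2 (fun z => r ((x : G ⧸ L), slab f h x + 1, z)) (fun z => hr _)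
      (pos f h a x (slab f h x + 1))).2 rfl
    have he : (slab f h x + 1) * (h : ℤ) + a + h = (slab f h x + 2 + ((0 : ℕ) : ℤ)) * h + a := by
      push_cast
      ring
    rw [he] at hc
    exact le_trans hc (by norm_num)
  | succ i ih =>
    rw [Function.iterate_succ_apply']
    have hc := (carve_close (f x) (m := (slab f h x + 2 + i) * h + a) (h := h)
      (by
        have := lev_le f h h2 x (2 + i) (by
          have : (0 : ℤ) ≤ (i : ℤ) := Int.natCast_nonneg i
          linarith) a
        rwa [← add_assoc] at this) h2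
      (fun z => r (((par L h r)^[i] (blk L f h a r x)).1, ((par L h r)^[i] (blk L f h a r x)).2.1, z))
      (fun z => hr _) (((par L h r)^[i] (blk L f h a r x)).2.2)).1 (by rw [nrm_sub_comm]; exact ih)
    have he : (slab f h x + 2 + (i : ℤ)) * (h : ℤ) + a + h = (slab f h x + 2 + ((i + 1 : ℕ) : ℤ)) * h + a := by
      push_cast
      ring
    rw [he] at hc
    exact hc

theorem blk_fin {L : Subgroup G} {f : G → Tile d} (hf : Emb L f) (h a : ℕ) (h2 : 2 ≤ h)
    (r : Var L d → ℕ) (hr : ∀ v, 2 ^ h ≤ r v ∧ r v < 2 * 2 ^ h) (k : ℕ) :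
    ∃ E : Finset G, ∀ x y, ∀ i ≤ k, ∀ j ≤ k,
      (par L h r)^[i] (blk L f h a r x) = (par L h r)^[j] (blk L f h a r y) → x⁻¹ * y ∈ E := by
  classical
  refine ⟨(hf.fin ((k + 2) * h + a + 3)).toFinset, ?_⟩
  intro x y i hi j hj hij
  rw [Set.Finite.mem_toFinset]
  have e1 : (x : G ⧸ L) = (y : G ⧸ L) := by
    have h1 := congrArg (fun v : Var L d => v.1) hij
    rw [(iter_par L h r (blk L f h a r x) i).1, (iter_par L h r (blk L f h a r y) j).1] at h1
    exact h1
  have e2 : slab f h x + 2 + i = slab f h y + 2 + j := by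
    have h1 := congrArg (fun v : Var L d => v.2.1) hij
    rw [(iter_par L h r (blk L f h a r x) i).2, (iter_par L h r (blk L f h a r y) j).2] at h1
    exact h1
  have e3 : ((par L h r)^[i] (blk L f h a r x)).2.2 = ((par L h r)^[j] (blk L f h a r y)).2.2 :=
    congrArg (fun v : Var L d => v.2.2) hij
  have hcx := iter_par_close L f h a h2 r hr x i
  have hcy := iter_par_close L f h a h2 r hr y j
  rw [← e2, ← e3] at hcy
  set M : ℤ := (slab f h x + 2 + i) * h + a with hM
  set u := ((par L h r)^[i] (blk L f h a r x)).2.2 with hu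
  have h6 : nrm (up (f x) M - up (f y) M) ≤ 2 ^ 3 := by
    have h1 := nrm_triangle (up (f x) M) u (up (f y) M)
    rw [nrm_sub_comm (up (f x) M) u] at h1
    have h3 : (2 : ℕ) ^ 3 = 8 := by norm_num
    omega
  have hi0 : (0 : ℤ) ≤ (i : ℤ) := Int.natCast_nonneg i
  have hj0 : (0 : ℤ) ≤ (j : ℤ) := Int.natCast_nonneg j
  have hik : (i : ℤ) ≤ (k : ℤ) := by exact_mod_cast hi
  have hjk : (j : ℤ) ≤ (k : ℤ) := by exact_mod_cast hj
  have hh : (0 : ℤ) < (h : ℤ) := by exact_mod_cast (by omega : 0 < h)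
  have hxM : (f x).1 ≤ M := by
    have := lev_le f h h2 x (2 + i) (by linarith) a
    rwa [← add_assoc] at this
  have hyM : (f y).1 ≤ M := by
    have := lev_le f h h2 y (2 + j) (by linarith) a
    rw [← add_assoc, ← e2] at this
    exact this
  have hclose := close_up 3 hxM hyM h6
  have up1 : ∀ (z : G) (c : ℤ), c ≤ (k : ℤ) → M = (slab f h z + 2 + c) * h + a →
      M + 3 ≤ (f z).1 + (((k + 2) * h + a + 3 : ℕ) : ℤ) := by
    intro z c hc hMz
    have h1 : (f z).1 / (h : ℤ) * (h : ℤ) ≤ (f z).1 := Int.ediv_mul_le _ hh.ne'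
    have h3 : c * (h : ℤ) ≤ (k : ℤ) * (h : ℤ) := mul_le_mul_of_nonneg_right hc hh.le
    have h4 : (slab f h z) * (h : ℤ) ≤ (f z).1 := h1
    rw [hMz]
    push_cast
    nlinarith
  refine ⟨?_, x, ?_⟩
  · exact QuotientGroup.eq.mp e1
  · rw [mul_inv_cancel_left]
    refine ⟨M + (3 : ℕ), ?_, ?_, ?_, ?_, hclose⟩
    · push_cast
      linarith
    · have := up1 x i hik rfl
      push_cast at this ⊢
      linarith
    · push_cast
      linarith
    · have := up1 y j hjk (by rw [hM, e2])
      push_cast at this ⊢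
      linarith

end Pool.Agent.Helper80.HY
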