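import Pool.Agent.Helper80.HY.Carve

/-!
# HY-06: blocks along steps

Let `w = 2 ^ h ≥ 4`, radii in `[w, 2 w)`.
PROOF of `carve_close`: `u = up p m`, `y = carve w r u'` with `nrm (u - u') ≤ 3`: `w * nrm (y - up p (m + h)) = nrm (w y - w up p (m + h)) ≤ nrm (w y - u') + nrm (u' - u) + nrm (u - w up p (m + h)) ≤ (2 w - 1) + 3 + (w - 1) = 3 w + 1`
(`nrm_smul`, `nrm_triangle`, `carve_mem`, `up_mul`), so `nrm ≤ 3`; with `u' = u`: `≤ 3 w - 2`, so `nrm ≤ 2`.
PROOF of `blk_step`. `i = slab x`, `y = x * s`, `i' = slab y`; same coset (`s ∈ L`). `near_level` and `a < h`: `|i - i'| ≤ 1`. `(f x).1 < (i + 1) * h`, so `near_up` applies with `m = j * h + a` for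
`j ≥ i + 1` or (`near_symm`) `j ≥ i' + 1`: `pos x j`, `pos y j` differ by at most `1`.
`i' = i`: if the blocks differ, the two `carve`s (same radii) differ and `carve_sep` (`c = 3`) shows that `x` is bad. `i' = i + 1`: `blk y = (γ, i + 3, carve (pos y (i + 2)))` and
`par (blk x) = (γ, i + 3, carve y₀)`, `y₀ = carve (pos x (i + 1))`, with the same radii `r (γ, i + 2, ·)`; `nrm (pos y (i + 2) - y₀) ≤ 1 + 2` (`carve_close` second part with `m = (i + 1) * h + a`, `m + h = (i + 2) * h + a`), so if they differ then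
`carve_sep` shows that `y` is bad. `i' = i - 1`: the same with `x` and `y` exchanged: `par (blk y) = blk x`.
-/

set_option autoImplicit false

namespace Pool.Agent.Helper80.HY

variable {G : Type*} [Group G] {d : ℕ}

theorem carve_close (p : Tile d) {m : ℤ} {h : ℕ} (hm : p.1 ≤ m) (h2 : 2 ≤ h)
    (r : (Fin d → ℤ) → ℕ) (hr : ∀ z, 2 ^ h ≤ r z ∧ r z < 2 * 2 ^ h) (u' : Fin d → ℤ) :
    (nrm (up p m - u') ≤ 3 → nrm (carve (2 ^ h) r u' - up p (m + h)) ≤ 3) ∧
      (u' = up p m → nrm (carve (2 ^ h) r u' - up p (m + h)) ≤ 2) := by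
  have hw : 4 ≤ 2 ^ h := by
    calc 4 = 2 ^ 2 := by norm_num
      _ ≤ 2 ^ h := Nat.pow_le_pow_right (by norm_num) h2
  have h1 := carve_mem (2 ^ h) (by omega) r (fun z => (hr z).1) u'
  have h3 := (hr (carve (2 ^ h) r u')).2
  have h4 := up_mul p h hm
  have h5 : 2 ^ h * nrm (carve (2 ^ h) r u' - up p (m + h)) ≤
      nrm ((((2 ^ h : ℕ) : ℤ) • carve (2 ^ h) r u') - u') +
        nrm (u' - ((2 ^ h : ℕ) : ℤ) • up p (m + h)) := by
    rw [← nrm_smul, smul_sub]
    exact nrm_triangle _ _ _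
  rw [nrm_sub_comm _ u'] at h5
  constructor
  · intro h6
    have h7 := nrm_triangle u' (up p m) (((2 ^ h : ℕ) : ℤ) • up p (m + h))
    rw [nrm_sub_comm u' (up p m)] at h7
    by_contra h8
    have h9 : 2 ^ h * 4 ≤ 2 ^ h * nrm (carve (2 ^ h) r u' - up p (m + h)) :=
      Nat.mul_le_mul_left _ (by omega)
    omega
  · intro h6
    rw [h6] at h5 h1 h3 ⊢
    by_contra h8
    have h9 : 2 ^ h * 3 ≤ 2 ^ h * nrm (carve (2 ^ h) r (up p m) - up p (m + h)) :=
      Nat.mul_le_mul_left _ (by omega)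
    omega

private theorem BlkStep_slab (f : G → Tile d) (h : ℕ) (hh : 0 < h) (x : G) :
    slab f h x * h ≤ (f x).1 ∧ (f x).1 < (slab f h x + 1) * h := by
  have hh' : (0 : ℤ) < h := by exact_mod_cast hh
  unfold slab
  constructor
  · exact Int.ediv_mul_le _ hh'.ne'
  · exact Int.lt_ediv_add_one_mul_self _ hh'

/-- the ancestors of near points -/
private theorem BlkStep_pos (f : G → Tile d) (h a : ℕ) (hh : 0 < h) (x y : G)
    (hn : NearT a (f x) (f y)) (j : ℤ) (hj : slab f h x + 1 ≤ j) :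
    nrm (pos f h a x j - pos f h a y j) ≤ 1 := by
  have h1 := (BlkStep_slab f h hh x).2
  have h2 : (slab f h x + 1) * (h : ℤ) ≤ j * h :=
    mul_le_mul_of_nonneg_right hj (Int.natCast_nonneg h)
  exact (near_up hn (m := j * h + a) (by linarith)).2.2

private theorem BlkStep_same (L : Subgroup G) (f : G → Tile d) (h a : ℕ) (hh : 0 < h)
    (r : Var L d → ℕ) (x y : G) (hc : (y : G ⧸ L) = (x : G ⧸ L)) (hn : NearT a (f x) (f y))
    (hs : slab f h y = slab f h x) (hx : ¬ bad L f h a r x) :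
    blk L f h a r y = blk L f h a r x := by
  have h1 := BlkStep_pos f h a hh x y hn (slab f h x + 1) le_rfl
  unfold blk
  rw [hc, hs]
  by_contra hne
  have hne' : carve (2 ^ h) (fun z => r ((x : G ⧸ L), slab f h x + 1, z))
      (pos f h a x (slab f h x + 1)) ≠
      carve (2 ^ h) (fun z => r ((x : G ⧸ L), slab f h x + 1, z))
      (pos f h a y (slab f h x + 1)) := by
    intro e
    exact hne (by rw [e])
  exact hx (carve_sep (2 ^ h) 3 _ _ _ (by omega) hne')

private theorem BlkStep_up (L : Subgroup G) (f : G → Tile d) (h a : ℕ) (h2 : 2 ≤ h)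
    (r : Var L d → ℕ) (hr : ∀ v, 2 ^ h ≤ r v ∧ r v < 2 * 2 ^ h) (x y : G)
    (hc : (y : G ⧸ L) = (x : G ⧸ L)) (hn : NearT a (f x) (f y))
    (hs : slab f h y = slab f h x + 1) (hy : ¬ bad L f h a r y) :
    blk L f h a r y = par L h r (blk L f h a r x) := by
  have hh : 0 < h := by omega
  have h1 := BlkStep_pos f h a hh x y hn (slab f h x + 1 + 1) (by omega)
  have h3 := (BlkStep_slab f h hh x).2
  have h4 := (carve_close (f x) (m := (slab f h x + 1) * h + a) (h := h) (by linarith) h2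
    (fun z => r ((x : G ⧸ L), slab f h x + 1, z)) (fun z => hr _)
    (pos f h a x (slab f h x + 1))).2 rfl
  have h5 : (slab f h x + 1) * (h : ℤ) + a + h = (slab f h x + 1 + 1) * h + a := by ring
  rw [h5] at h4
  change nrm (carve (2 ^ h) (fun z => r ((x : G ⧸ L), slab f h x + 1, z))
    (pos f h a x (slab f h x + 1)) - pos f h a x (slab f h x + 1 + 1)) ≤ 2 at h4
  have h6 : nrm (pos f h a y (slab f h x + 1 + 1) -
      carve (2 ^ h) (fun z => r ((x : G ⧸ L), slab f h x + 1, z))
        (pos f h a x (slab f h x + 1))) ≤ 3 := by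
    have h7 := nrm_triangle (pos f h a y (slab f h x + 1 + 1))
      (pos f h a x (slab f h x + 1 + 1))
      (carve (2 ^ h) (fun z => r ((x : G ⧸ L), slab f h x + 1, z))
        (pos f h a x (slab f h x + 1)))
    rw [nrm_sub_comm (pos f h a y (slab f h x + 1 + 1)) (pos f h a x (slab f h x + 1 + 1)),
      nrm_sub_comm (pos f h a x (slab f h x + 1 + 1))
      (carve (2 ^ h) (fun z => r ((x : G ⧸ L), slab f h x + 1, z))
        (pos f h a x (slab f h x + 1)))] at h7
    omega
  by_contra hne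
  have hne' : carve (2 ^ h) (fun z => r ((y : G ⧸ L), slab f h y + 1, z))
      (pos f h a y (slab f h y + 1)) ≠
      carve (2 ^ h) (fun z => r ((y : G ⧸ L), slab f h y + 1, z))
      (carve (2 ^ h) (fun z => r ((x : G ⧸ L), slab f h x + 1, z))
        (pos f h a x (slab f h x + 1))) := by
    intro e
    apply hne
    unfold blk par
    simp only
    rw [e, hc, hs]
    have h8 : slab f h x + 1 + 2 = slab f h x + 2 + 1 := by ring
    have h9 : slab f h x + 1 + 1 = slab f h x + 2 := by ring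
    rw [h8, h9]
  refine hy (carve_sep (2 ^ h) 3 _ _ _ ?_ hne')
  rw [hs]
  exact h6

theorem blk_step (L : Subgroup G) (f : G → Tile d) (h a : ℕ) (hah : a < h) (h2 : 2 ≤ h)
    (r : Var L d → ℕ) (hr : ∀ v, 2 ^ h ≤ r v ∧ r v < 2 * 2 ^ h) (x s : G) (hs : s ∈ L)
    (hn : NearT a (f x) (f (x * s))) (hx : ¬ bad L f h a r x) (hy : ¬ bad L f h a r (x * s)) :
    blk L f h a r (x * s) = blk L f h a r x ∨ blk L f h a r (x * s) = par L h r (blk L f h a r x) ∨
      par L h r (blk L f h a r (x * s)) = blk L f h a r x := by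
  have hh : 0 < h := by omega
  have hc : ((x * s : G) : G ⧸ L) = (x : G ⧸ L) := QuotientGroup.mk_mul_of_mem x hs
  obtain ⟨y, hy'⟩ : ∃ y, y = x * s := ⟨_, rfl⟩
  rw [← hy'] at hn hy hc ⊢
  have h1 := BlkStep_slab f h hh x
  have h3 := BlkStep_slab f h hh y
  have h4 := abs_le.1 (near_level hn)
  have hah' : (a : ℤ) < h := by exact_mod_cast hah
  have hh' : (0 : ℤ) < h := by exact_mod_cast hh
  have h5 : slab f h y < slab f h x + 2 := by
    have : slab f h y * (h : ℤ) < (slab f h x + 2) * h := by nlinarith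
    exact lt_of_mul_lt_mul_right this hh'.le
  have h6 : slab f h x < slab f h y + 2 := by
    have : slab f h x * (h : ℤ) < (slab f h y + 2) * h := by nlinarith
    exact lt_of_mul_lt_mul_right this hh'.le
  rcases lt_trichotomy (slab f h y) (slab f h x) with h7 | h7 | h7
  · right; right
    exact (BlkStep_up L f h a h2 r hr y x hc.symm (near_symm hn) (by omega) hx).symm
  · left
    exact BlkStep_same L f h a hh r x y hc hn h7 hx
  · right; left
    exact BlkStep_up L f h a h2 r hr x y hc hn (by omega) hy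

end Pool.Agent.Helper80.HY
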