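import Pool.Agent.Helper80.HY.Norm

/-!
# HY-05: the carving

PROOFS. `carve_mem`: the set in the definition of `carve` contains `z = fun i => u i / w` (`0 ≤ u i - w * (u i / w) ≤ w - 1`, `nrm ≤ w - 1 ≤ r z`), so it is nonempty; `Set.Nonempty.some_mem`.
`carve_congr`: the two sets are equal (`Set.ext`), unfold and rewrite.
`carve_sep`: by contradiction: if for all `z` not (`nrm (u - w z) ≤ r z + c` and `r z ≤ nrm (u - w z) + c`) then the two sets are equal: if `nrm (u - w z) ≤ r z` then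
`r z > nrm (u - w z) + c ≥ nrm (u' - w z)` (`nrm_triangle`, `nrm (u' - u) ≤ c`); if `nrm (u' - w z) ≤ r z` then `nrm (u - w z) ≤ r z + c`, so again
`r z > nrm (u - w z) + c`.
-/

set_option autoImplicit false

namespace Pool.Agent.Helper80.HY

variable {d : ℕ}

theorem carve_mem (w : ℕ) (hw : 0 < w) (r : (Fin d → ℤ) → ℕ) (hr : ∀ z, w ≤ r z) (u : Fin d → ℤ) :
    nrm (u - (w : ℤ) • carve w r u) ≤ r (carve w r u) := by
  classical
  have hne : {z : Fin d → ℤ | nrm (u - (w : ℤ) • z) ≤ r z}.Nonempty := by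
    refine ⟨fun i => u i / w, ?_⟩
    show nrm (u - (w : ℤ) • (fun i => u i / (w : ℤ))) ≤ r _
    refine le_trans ?_ (hr _)
    unfold nrm
    refine Finset.sup_le ?_
    intro i _
    have hw' : (0 : ℤ) < w := by exact_mod_cast hw
    have h1 : (u - (w : ℤ) • (fun i => u i / (w : ℤ))) i = u i % w := by
      have := Int.emod_add_mul_ediv (u i) w
      simp only [Pi.sub_apply, Pi.smul_apply, smul_eq_mul]
      linarith
    rw [h1]
    have h2 := Int.emod_nonneg (u i) hw'.ne'
    have h3 := Int.emod_lt_of_pos (u i) hw'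
    omega
  have h : carve w r u = hne.some := by
    unfold carve
    rw [dif_pos hne]
  rw [h]
  exact hne.some_mem

theorem carve_congr (w : ℕ) (r : (Fin d → ℤ) → ℕ) (u u' : Fin d → ℤ)
    (h : ∀ z, nrm (u - (w : ℤ) • z) ≤ r z ↔ nrm (u' - (w : ℤ) • z) ≤ r z) :
    carve w r u = carve w r u' := by
  classical
  have hs : {z : Fin d → ℤ | nrm (u - (w : ℤ) • z) ≤ r z}
      = {z : Fin d → ℤ | nrm (u' - (w : ℤ) • z) ≤ r z} := Set.ext h
  unfold carve
  simp only [hs]

theorem carve_sep (w c : ℕ) (r : (Fin d → ℤ) → ℕ) (u u' : Fin d → ℤ) (h : nrm (u - u') ≤ c)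
    (hne : carve w r u ≠ carve w r u') :
    ∃ z, nrm (u - (w : ℤ) • z) ≤ r z + c ∧ r z ≤ nrm (u - (w : ℤ) • z) + c := by
  by_contra hcon
  push Not at hcon
  apply hne
  apply carve_congr
  intro z
  have hz := hcon z
  have h1 : nrm (u' - (w : ℤ) • z) ≤ nrm (u - (w : ℤ) • z) + c := by
    have e1 := nrm_triangle u' u ((w : ℤ) • z)
    rw [nrm_sub_comm u' u] at e1
    omega
  have h2 : nrm (u - (w : ℤ) • z) ≤ nrm (u' - (w : ℤ) • z) + c := by
    have e1 := nrm_triangle u u' ((w : ℤ) • z)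
    omega
  constructor
  · intro h3
    have := hz (by omega)
    omega
  · intro h3
    have := hz (by omega)
    omega

end Pool.Agent.Helper80.HY
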