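import Pool.Agent.Helper80.HY.TileNear

/-!
# HY-18: from the group to its cosets

PROOF. Let `f` be the map of `HypEmb L d`. For `x : G` let `s x = (x : G ⧸ L).out` (`(s x)⁻¹ * x ∈ L` by `QuotientGroup.eq` and `QuotientGroup.out_eq'`), `ρ x : L = ⟨(s x)⁻¹ * x, _⟩`, `F x = tile (f (ρ x))`. For `g ∈ L`: `s (x * g) = s x`, so `ρ (x * g) = ρ x * ⟨g, _⟩`.
`near`: the constant `C` of `g` in `HypEmb`, then `near_of_hdist`. `fin`: for `a` take `C` from `hdist_of_near d a`; `{g ∈ L | ∃ x, NearT a (F x) (F (x * g))}` is contained in the image of the finite set `{g : L | ∃ x, hdist (f x) (f (x * g)) ≤ C}` under the inclusion.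
-/

set_option autoImplicit false

namespace Pool.Agent.Helper80.HY

variable {G : Type*} [Group G] {d : ℕ}

theorem HypEmb.emb {L : Subgroup G} (h : HypEmb L d) : ∃ F : G → Tile d, Emb L F := by
  obtain ⟨f, hf0, hf1, hf2⟩ := h
  have hs : ∀ x : G, ((QuotientGroup.mk x : G ⧸ L).out)⁻¹ * x ∈ L := fun x =>
    QuotientGroup.eq.1 (QuotientGroup.out_eq' _)
  let ρ : G → L := fun x => ⟨((QuotientGroup.mk x : G ⧸ L).out)⁻¹ * x, hs x⟩
  have hρ : ∀ (x : G) (g : L), ρ (x * g) = ρ x * g := by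
    intro x g
    have h1 : (QuotientGroup.mk (x * g) : G ⧸ L) = QuotientGroup.mk x :=
      QuotientGroup.mk_mul_of_mem x g.2
    apply Subtype.ext
    simp only [ρ, h1, Subgroup.coe_mul, mul_assoc]
  refine ⟨fun x => tile (f (ρ x)), ?_, ?_⟩
  · intro g hg
    obtain ⟨C, hC⟩ := hf1 ⟨g, hg⟩
    obtain ⟨a, ha⟩ := near_of_hdist d C
    refine ⟨a, fun x => ?_⟩
    have h2 : ρ (x * g) = ρ x * ⟨g, hg⟩ := hρ x ⟨g, hg⟩
    rw [h2]
    exact ha _ _ (hf0 _) (hf0 _) (hC (ρ x))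
  · intro a
    obtain ⟨C, hC⟩ := hdist_of_near d a
    refine ((hf2 C).image (fun g : L => (g : G))).subset ?_
    rintro g ⟨hg, x, hx⟩
    refine ⟨⟨g, hg⟩, ⟨ρ x, ?_⟩, rfl⟩
    have h2 : ρ (x * g) = ρ x * ⟨g, hg⟩ := hρ x ⟨g, hg⟩
    rw [h2] at hx
    exact hC _ _ (hf0 _) (hf0 _) hx

end Pool.Agent.Helper80.HY
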