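import Pool.Agent.Helper80.HY.MarksEx

/-!
# HY-15: the horizontal walls

PROOF. `q` from `exists_blk_marks β S`. Given `D` apply its second part to `D' = {g⁻¹ * g' | g, g' ∈ D}` and put `k = κ`; let `Mk` be the marked blocks. `M = {x | bl x ∈ Mk}`, `F = {x | ∀ a < k, p^[a] (bl x) ∉ Mk}`, `E = β.E k ∪ β.E 0`.
(1) `Bdd S M`: by the first property all points `y` of a chain in `M` with steps in `S` from `x ∈ M` have `bl y = bl x` (`Chain.rec'`, a step from `a` to `b` is `b = a * (a⁻¹ * b)`, `a⁻¹ * b ∈ S`), so `x⁻¹ * y ∈ β.E 0` (`β.hE 0 x y 0 _ 0 _`).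
(2) `Few L F D q`: if `Q.card ≥ q + 1` choose an injection `Fin (q + 1) → Q` and points `u i ∈ F` in the coset number `i` with `x⁻¹ * u i ∈ D`; `(u i)⁻¹ * u j = (x⁻¹ * u i)⁻¹ * (x⁻¹ * u j) ∈ D'`. The second property contradicts `u i ∈ F`.
(3) `Bdd T (V \ (M ∪ F))`: call a block `b` good if `b ∉ Mk` and `∃ a < k, p^[a] b ∈ Mk`; `bl y` is good for `y ∉ M ∪ F`. Invariant for the points `z` of a chain from `x` in `V \ (M ∪ F)` with steps in `T`:
`∃ i j, p^[i] (bl x) = p^[j] (bl z) ∧ (∀ i' ≤ i, p^[i'] (bl x) ∉ Mk) ∧ (∀ j' ≤ j, p^[j'] (bl z) ∉ Mk)` and `z ∉ M ∪ F`, `z ∈ V`. Start: `i = j = 0`. Step from `z` to `z' = z * s` (`β.step`): if `bl z' = bl z` nothing changes. If `bl z' = p (bl z)`: for `j = j₀ + 1` take `(i, j₀)` (`Function.iterate_succ_apply`); for `j = 0` take `(i + 1, 0)`: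
`p^[i + 1] (bl x) = p (bl z) = bl z'`, not marked because `z' ∉ M`. If `p (bl z') = bl z`: take `(i, j + 1)`: `p^[j + 1] (bl z') = p^[j] (bl z)`, `bl z' ∉ Mk`.
At the end: as `bl x` is good there is `a < k` with `p^[a] (bl x) ∈ Mk`, so `i < a < k`; in the same way `j < k`. So `x⁻¹ * y ∈ β.E k` by `β.hE k x y i _ j _`.
-/

set_option autoImplicit false

namespace Pool.Agent.Helper80.HY

open Pool.Agent.Helper65.TH Pool.Agent.Helper65.GN

variable {G : Type*} [Group G] {L : Subgroup G} {T : Finset G} {V : Set G} {B : Type*}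

theorem horiz (β : Blk L T V B) (S : Finset G) : ∃ q : ℕ, ∀ D : Finset G,
    ∃ (M F : Set G) (E : Finset G), Bdd (S : Set G) M E ∧ Few L F D q ∧
      Bdd (T : Set G) (V \ (M ∪ F)) E := by
  classical
  obtain ⟨q, hq⟩ := exists_blk_marks β S
  refine ⟨q, fun D => ?_⟩
  obtain ⟨k, hk⟩ := hq (Finset.image₂ (fun g g' => g⁻¹ * g') D D)
  obtain ⟨Mk, hM1, hM2⟩ := hk k le_rfl
  refine ⟨{x | β.bl x ∈ Mk}, {x | ∀ a < k, β.p^[a] (β.bl x) ∉ Mk}, β.E k ∪ β.E 0, ?_, ?_, ?_⟩
  · intro x hx y hxy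
    have key : β.bl y = β.bl x := by
      refine hxy.rec' (R := fun z => β.bl z = β.bl x) rfl ?_
      intro a b _ ha hs hb
      have h1 := hM1 a (a⁻¹ * b) (by simpa using hs) (by rw [ha]; exact hx)
        (by rw [mul_inv_cancel_left]; exact hb)
      rw [mul_inv_cancel_left] at h1
      rw [h1, ha]
    exact Finset.mem_union_right _ (β.hE 0 x y 0 le_rfl 0 le_rfl (by simp [key]))
  · intro x Q hQ
    by_contra hcard
    push Not at hcard
    have h1 : ∀ c : {c // c ∈ Q}, ∃ y : G, (∀ a < k, β.p^[a] (β.bl y) ∉ Mk) ∧ x⁻¹ * y ∈ D ∧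
        (y : G ⧸ L) = c := by
      intro c
      obtain ⟨y, hy1, hy2, hy3⟩ := hQ c.1 c.2
      exact ⟨y, hy1, hy2, hy3⟩
    choose u hu1 hu2 hu3 using h1
    have h2 : Nonempty (Fin (q + 1) ↪ {c // c ∈ Q}) := by
      apply Function.Embedding.nonempty_of_card_le
      rw [Fintype.card_fin, Fintype.card_coe]
      exact hcard
    obtain ⟨e⟩ := h2
    obtain ⟨i, a, ha, hmem⟩ := hM2 (fun i => u (e i)) (by
      intro i j hij h
      apply hij
      apply e.injective
      apply Subtype.ext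
      rw [← hu3 (e i), ← hu3 (e j)]
      exact h) (by
      intro i j
      refine Finset.mem_image₂.mpr ⟨x⁻¹ * u (e i), hu2 (e i), x⁻¹ * u (e j), hu2 (e j), ?_⟩
      group)
    exact hu1 (e i) a ha hmem
  · intro x hx y hxy
    have key : y ∈ V \ ({x | β.bl x ∈ Mk} ∪ {x | ∀ a < k, β.p^[a] (β.bl x) ∉ Mk}) ∧
        ∃ i j : ℕ, β.p^[i] (β.bl x) = β.p^[j] (β.bl y) ∧ (∀ i' ≤ i, β.p^[i'] (β.bl x) ∉ Mk) ∧
          (∀ j' ≤ j, β.p^[j'] (β.bl y) ∉ Mk) := by
      refine hxy.rec' (R := fun z => z ∈ V \ ({x | β.bl x ∈ Mk} ∪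
        {x | ∀ a < k, β.p^[a] (β.bl x) ∉ Mk}) ∧
        ∃ i j : ℕ, β.p^[i] (β.bl x) = β.p^[j] (β.bl z) ∧ (∀ i' ≤ i, β.p^[i'] (β.bl x) ∉ Mk) ∧
          (∀ j' ≤ j, β.p^[j'] (β.bl z) ∉ Mk)) ?_ ?_
      · have hx' : β.bl x ∉ Mk := fun h => hx.2 (Or.inl h)
        refine ⟨hx, 0, 0, rfl, ?_, ?_⟩
        · intro i' hi'
          obtain rfl : i' = 0 := by omega
          exact hx'
        · intro i' hi'
          obtain rfl : i' = 0 := by omega
          exact hx'
      · intro a b _ ha hs hb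
        obtain ⟨haV, i, j, h1, h2, h3⟩ := ha
        have hb' : β.bl b ∉ Mk := fun h => hb.2 (Or.inl h)
        have hst := β.step a haV.1 (a⁻¹ * b) (by simpa using hs)
          (by rw [mul_inv_cancel_left]; exact hb.1)
        rw [mul_inv_cancel_left] at hst
        refine ⟨hb, ?_⟩
        rcases hst with hst | hst | hst
        · exact ⟨i, j, by rw [hst]; exact h1, h2, by rw [hst]; exact h3⟩
        · rcases j with _ | j
          · have h1' : β.p^[i + 1] (β.bl x) = β.bl b := by
              rw [Function.iterate_succ_apply', h1, hst]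
              rfl
            refine ⟨i + 1, 0, h1', ?_, ?_⟩
            · intro i' hi'
              rcases Nat.lt_or_ge i i' with h | h
              · obtain rfl : i' = i + 1 := by omega
                rw [h1']
                exact hb'
              · exact h2 i' h
            · intro j' hj'
              obtain rfl : j' = 0 := by omega
              exact hb'
          · refine ⟨i, j, ?_, h2, ?_⟩
            · rw [h1, Function.iterate_succ_apply, hst]
            · intro j' hj'
              have h4 := h3 (j' + 1) (by omega)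
              rw [Function.iterate_succ_apply, ← hst] at h4
              exact h4
        · refine ⟨i, j + 1, ?_, h2, ?_⟩
          · rw [h1, Function.iterate_succ_apply, hst]
          · intro j' hj'
            rcases j' with _ | j'
            · exact hb'
            · rw [Function.iterate_succ_apply, hst]
              exact h3 j' (by omega)
    obtain ⟨hy, i, j, h1, h2, h3⟩ := key
    have good : ∀ z : G, z ∈ V \ ({x | β.bl x ∈ Mk} ∪ {x | ∀ a < k, β.p^[a] (β.bl x) ∉ Mk}) →
        ∃ a < k, β.p^[a] (β.bl z) ∈ Mk := by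
      intro z hz
      by_contra h
      push Not at h
      exact hz.2 (Or.inr h)
    obtain ⟨a, ha, ha'⟩ := good x hx
    obtain ⟨b, hb, hb'⟩ := good y hy
    have hi : i ≤ k := by
      by_contra h
      exact h2 a (by omega) ha'
    have hj : j ≤ k := by
      by_contra h
      exact h3 b (by omega) hb'
    exact Finset.mem_union_left _ (β.hE k x y i hi j hj h1)

end Pool.Agent.Helper80.HY
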