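import Mathlib

/-!
# HY-10: numbers for the vertical walls. MATHLIB ONLY

PROOF. Let `w = 2 ^ h`. As `h ≥ 2`, `2 * (2 * w + 2) + 1 = 4 * w + 5 ≤ 6 * w`, so `((2 * (2 * w + 2) + 1) * 2 ^ (h + a)) ^ d ≤ (6 * 2 ^ a) ^ d * w ^ (2 * d)`. Let `A = δ * κ * (6 * 2 ^ a) ^ d * (δ * 7 ^ d) ^ (2 * d) * (7 * δ) ^ (2 * d + 1) * 2 ^ (2 * d + 1)`
(independent of `h`). The left side is at most `A * (h + a + 1) * w ^ (2 * d)`, so it is enough to have `A * (h + a + 1) ≤ 2 ^ h`. Take `h = 3 * n + 2` with `n = A + a`: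
`A * (h + a + 1) ≤ n * (4 * n + 3) ≤ 2 ^ (3 * n + 2) = 2 ^ n * (4 * 4 ^ n)` because `n ≤ 2 ^ n` and `4 * n + 3 ≤ 4 * 4 ^ n`.
-/

set_option autoImplicit false

namespace Pool.Agent.Helper80.HY

theorem vert_num (κ δ a d : ℕ) : ∃ h, a < h ∧ 2 ≤ h ∧
    (δ * (κ * ((h + a + 1) * ((2 * (2 * 2 ^ h + 2) + 1) * 2 ^ (h + a)) ^ d))) *
      (δ * 7 ^ d) ^ (2 * d) * (7 * δ) ^ (2 * d + 1) * 2 ^ (2 * d + 1) ≤ (2 ^ h) ^ (2 * d + 1) := by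
  obtain ⟨A, hA⟩ : ∃ A : ℕ, A = δ * κ * (6 * 2 ^ a) ^ d * (δ * 7 ^ d) ^ (2 * d) * (7 * δ) ^ (2 * d + 1) *
    2 ^ (2 * d + 1) := ⟨_, rfl⟩
  obtain ⟨n, hn⟩ : ∃ n : ℕ, n = A + a := ⟨_, rfl⟩
  refine ⟨3 * n + 2, by omega, by omega, ?_⟩
  obtain ⟨w, hw⟩ : ∃ w : ℕ, w = 2 ^ (3 * n + 2) := ⟨_, rfl⟩
  have hw4 : 4 ≤ w := by
    rw [hw, pow_add]
    have : 1 ≤ 2 ^ (3 * n) := Nat.one_le_two_pow
    omega
  have h1 : (2 * (2 * 2 ^ (3 * n + 2) + 2) + 1) * 2 ^ (3 * n + 2 + a) ≤ 6 * 2 ^ a * w ^ 2 := by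
    have e1 : 2 ^ (3 * n + 2 + a) = w * 2 ^ a := by rw [pow_add, hw]
    rw [e1, ← hw]
    have h2 : 2 * (2 * w + 2) + 1 ≤ 6 * w := by omega
    calc (2 * (2 * w + 2) + 1) * (w * 2 ^ a) ≤ 6 * w * (w * 2 ^ a) := Nat.mul_le_mul_right _ h2
      _ = 6 * 2 ^ a * w ^ 2 := by ring
  have h3 : ((2 * (2 * 2 ^ (3 * n + 2) + 2) + 1) * 2 ^ (3 * n + 2 + a)) ^ d ≤ (6 * 2 ^ a) ^ d * w ^ (2 * d) := by
    calc ((2 * (2 * 2 ^ (3 * n + 2) + 2) + 1) * 2 ^ (3 * n + 2 + a)) ^ d ≤ (6 * 2 ^ a * w ^ 2) ^ d :=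
          Nat.pow_le_pow_left h1 d
      _ = (6 * 2 ^ a) ^ d * w ^ (2 * d) := by rw [mul_pow, ← pow_mul]
  have h4 : A * (3 * n + 2 + a + 1) ≤ w := by
    have e1 : A ≤ n := by omega
    have e2 : 3 * n + 2 + a + 1 ≤ 4 * n + 3 := by omega
    have e3 : n ≤ 2 ^ n := Nat.lt_two_pow_self.le
    have e4 : 4 * n + 3 ≤ 4 * 4 ^ n := by
      have : n < 4 ^ n := Nat.lt_pow_self (by norm_num)
      omega
    calc A * (3 * n + 2 + a + 1) ≤ n * (4 * n + 3) := Nat.mul_le_mul e1 e2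
      _ ≤ 2 ^ n * (4 * 4 ^ n) := Nat.mul_le_mul e3 e4
      _ = w := by
        rw [hw, pow_add, pow_mul]
        have : (4 : ℕ) ^ n = 2 ^ n * 2 ^ n := by rw [← mul_pow]; norm_num
        rw [this]
        have h8 : ((2 : ℕ) ^ 3) ^ n = 2 ^ n * (2 ^ n * 2 ^ n) := by
          rw [← mul_pow, ← mul_pow]; norm_num
        rw [h8]
        ring
  rw [← hw]
  calc (δ * (κ * ((3 * n + 2 + a + 1) * ((2 * (2 * w + 2) + 1) * 2 ^ (3 * n + 2 + a)) ^ d))) *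
      (δ * 7 ^ d) ^ (2 * d) * (7 * δ) ^ (2 * d + 1) * 2 ^ (2 * d + 1)
      ≤ (δ * (κ * ((3 * n + 2 + a + 1) * ((6 * 2 ^ a) ^ d * w ^ (2 * d))))) *
      (δ * 7 ^ d) ^ (2 * d) * (7 * δ) ^ (2 * d + 1) * 2 ^ (2 * d + 1) := by
        rw [← hw] at h3
        gcongr
    _ = A * (3 * n + 2 + a + 1) * w ^ (2 * d) := by rw [hA]; ring
    _ ≤ w * w ^ (2 * d) := Nat.mul_le_mul_right _ h4
    _ = w ^ (2 * d + 1) := by rw [pow_succ, mul_comm]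

end Pool.Agent.Helper80.HY
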