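import Pool.Agent.Helper80.HY.Count
import Pool.Agent.Helper80.HY.VertNum
import Pool.Agent.Helper75.Apc.Count

/-!
# HY-11: radii for which every ball `x D` sees at most `2 d` cosets of bad points

PROOF. `κ` from `count hf`, `δ = D.card`, `h` from `vert_num κ δ a d`, `w = 2 ^ h ≥ 4`. For `y : G` put `j y = slab f h y + 1`, `p y = pos f h a y (j y)`.
Apply `Helper75.Apc.exists_assignment` with `V = Var L d`, `X = G`, number of values `w`, `J = 2 * d + 1`:
`Ctr x` = the variables `((y : G ⧸ L), j y, z)` with `y = x * g`, `g ∈ D`, `z` with `z i ∈ [p y i / w - 3, p y i / w + 3]` for all `i` and `nrm (p y - w • z) ≤ 2 * w + 2` (image of a filter of `D ×ˢ ...`, or `D.biUnion` with `Fintype.piFinset` and `Finset.Icc`): at most `Q = δ * 7 ^ d` elements.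
(If `nrm (p - w • z) ≤ 2 * w + 2`, `w ≥ 4` then automatically `p i / w - 2 ≤ z i ≤ p i / w + 3`.)
`Wd x c` = the values `t` for which there is `g ∈ D` with `y = x * g`, `(y : G ⧸ L) = c.1`, `j y = c.2.1` and `nrm (p y - w • c.2.2) ≤ w + t + 3`, `w + t ≤ nrm (p y - w • c.2.2) + 3`: at most `7` values for each `g`, so at most `7 * δ`.
`Pts c` = the points `x = y * g⁻¹`, `g ∈ D`, with `y` in the finite set of `count` for `γ = c.1`, `m = c.2.1 * h + a`, `k = h + a`, `R = 2 * w + 2`, `u = w • c.2.2`: at most `I = δ * (κ * ((h + a + 1) * ((2 * (2 * w + 2) + 1) * 2 ^ (h + a)) ^ d))` points. `c ∈ Ctr x → x ∈ Pts c`: `c.2.1 = j y`,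
`slab y * h ≤ (f y).1 < (slab y + 1) * h` gives `m - k ≤ (f y).1 ≤ m` (`m = (slab y + 1) * h + a`), and `pos f h a y (j y) = up (f y) m` by definition.
The result is `φ : Var L d → Fin w` such that every `x` has at most `2 * d` variables `c ∈ Ctr x` with `φ c ∈ Wd x c`; put `r v = w + φ v`.
`Few`: let `x` and `Q` be given with `c ∈ seen L {bad} D x` for `c ∈ Q`: there is `y = x * g`, `g = x⁻¹ * y ∈ D`, bad, in the coset `c`, so there is `z_c` with `nrm (p y - w • z_c) ≤ r + 3 ≤ 2 * w + 2` (`r ≤ 2 * w - 1`) and `r ≤ nrm (p y - w • z_c) + 3`, `r = r (c, j y, z_c)`: the variable `(c, j y, z_c)` is in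
`Ctr x` and its value in `Wd x`. The map `c ↦ (c, j y, z_c)` is injective, so `Q.card < 2 * d + 1`.
-/

set_option autoImplicit false

namespace Pool.Agent.Helper80.HY

variable {G : Type*} [Group G] {d : ℕ}

open Classical in
/-- the centres which are relevant for the position `u` -/
private noncomputable def zs (w : ℕ) (u : Fin d → ℤ) : Finset (Fin d → ℤ) :=
  (Fintype.piFinset fun i => Finset.Icc (u i / (w : ℤ) - 3) (u i / (w : ℤ) + 3)).filter fun z =>
    nrm (u - (w : ℤ) • z) ≤ 2 * w + 2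

private theorem card_zs (w : ℕ) (u : Fin d → ℤ) : (zs w u).card ≤ 7 ^ d := by
  unfold zs
  refine (Finset.card_filter_le _ _).trans ?_
  rw [Fintype.card_piFinset]
  have h : ∀ i : Fin d, (Finset.Icc (u i / (w : ℤ) - 3) (u i / (w : ℤ) + 3)).card = 7 := by
    intro i
    rw [Int.card_Icc]
    omega
  rw [Finset.prod_congr rfl fun i _ => h i, Finset.prod_const, Finset.card_univ, Fintype.card_fin]

private theorem mem_zs {w : ℕ} (hw : 4 ≤ w) {u z : Fin d → ℤ} (h : nrm (u - (w : ℤ) • z) ≤ 2 * w + 2) :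
    z ∈ zs w u := by
  unfold zs
  refine Finset.mem_filter.2 ⟨Fintype.mem_piFinset.2 fun i => ?_, h⟩
  have h1 := (nrm_le_iff _ _).1 h i
  have h2 : (u - (w : ℤ) • z) i = u i - w * z i := rfl
  rw [h2] at h1
  push_cast at h1
  have hw' : (4 : ℤ) ≤ w := by exact_mod_cast hw
  have h3 := Int.mul_ediv_add_emod (u i) w
  have h4 := Int.emod_nonneg (u i) (by omega : (w : ℤ) ≠ 0)
  have h5 := Int.emod_lt_of_pos (u i) (by omega : (0 : ℤ) < w)
  obtain ⟨h6, h7⟩ := abs_le.1 h1
  rw [Finset.mem_Icc]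
  constructor
  · by_contra hc
    have h8 : z i ≤ u i / w - 4 := by omega
    have h9 : (w : ℤ) * z i ≤ w * (u i / w - 4) := mul_le_mul_of_nonneg_left h8 (by omega)
    have h10 : (w : ℤ) * (u i / w - 4) = w * (u i / w) - 4 * w := by ring
    omega
  · by_contra hc
    have h8 : u i / w + 4 ≤ z i := by omega
    have h9 : (w : ℤ) * (u i / w + 4) ≤ w * z i := mul_le_mul_of_nonneg_left h8 (by omega)
    have h10 : (w : ℤ) * (u i / w + 4) = w * (u i / w) + 4 * w := by ring
    omega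

/-- the values which put a wall near the position `u` -/
private def ts (w : ℕ) (N : ℕ) : Finset (Fin w) :=
  Finset.univ.filter fun t => N ≤ w + t.val + 3 ∧ w + t.val ≤ N + 3

private theorem card_ts (w N : ℕ) : (ts w N).card ≤ 7 := by
  have h1 : (ts w N).card ≤ (Finset.Icc (N - (w + 3)) (N + 3 - w)).card := by
    refine Finset.card_le_card_of_injOn (fun t => t.val) ?_ ?_
    · intro t ht
      have h := (Finset.mem_filter.1 (Finset.mem_coe.1 ht)).2
      refine Finset.mem_coe.2 (Finset.mem_Icc.2 ⟨?_, ?_⟩)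
      · show N - (w + 3) ≤ t.val
        omega
      · show t.val ≤ N + 3 - w
        omega
    · intro s _ t _ hst
      exact Fin.ext hst
  refine h1.trans ?_
  rw [Nat.card_Icc]
  omega

theorem exists_radii {L : Subgroup G} {f : G → Tile d} (hf : Emb L f) (a : ℕ) (D : Finset G) :
    ∃ h : ℕ, a < h ∧ 2 ≤ h ∧ ∃ r : Var L d → ℕ, (∀ v, 2 ^ h ≤ r v ∧ r v < 2 * 2 ^ h) ∧
      Few L {x | bad L f h a r x} D (2 * d) := by
  classical
  obtain ⟨κ, hκ⟩ := count hf
  obtain ⟨h, hah, h2, hnum⟩ := vert_num κ D.card a d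
  refine ⟨h, hah, h2, ?_⟩
  obtain ⟨w, hw⟩ : ∃ w : ℕ, w = 2 ^ h := ⟨_, rfl⟩
  have hw4 : 4 ≤ w := by
    rw [hw]
    calc 4 = 2 ^ 2 := by norm_num
      _ ≤ 2 ^ h := Nat.pow_le_pow_right (by norm_num) h2
  rw [← hw] at hnum
  obtain ⟨P, hP⟩ : ∃ P : G → (Fin d → ℤ), P = fun y => pos f h a y (slab f h y + 1) := ⟨_, rfl⟩
  have hhpos : (0 : ℤ) < h := by exact_mod_cast (by omega : 0 < h)
  let Ctr : G → Finset (Var L d) := fun x => D.biUnion fun g =>
    (zs w (P (x * g))).image fun z => (((x * g : G) : G ⧸ L), slab f h (x * g) + 1, z)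
  let Wd : G → Var L d → Finset (Fin w) := fun x c => D.biUnion fun g =>
    ts w (nrm (P (x * g) - (w : ℤ) • c.2.2))
  let S : Var L d → Finset G := fun c =>
    (hκ c.1 (c.2.1 * h + a) (h + a) (2 * w + 2) ((w : ℤ) • c.2.2)).1.toFinset
  let Pts : Var L d → Finset G := fun c => (S c ×ˢ D).image fun p => p.1 * p.2⁻¹
  have hQ : ∀ x, (Ctr x).card ≤ D.card * 7 ^ d := by
    intro x
    refine Finset.card_biUnion_le.trans ((Finset.sum_le_card_nsmul _ _ (7 ^ d) ?_).trans
      (le_of_eq (smul_eq_mul _ _)))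
    intro g _
    exact Finset.card_image_le.trans (card_zs w _)
  have hWd : ∀ x c, (Wd x c).card ≤ 7 * D.card := by
    intro x c
    refine Finset.card_biUnion_le.trans ((Finset.sum_le_card_nsmul _ _ 7 ?_).trans ?_)
    · intro g _
      exact card_ts w _
    · rw [smul_eq_mul, mul_comm]
  have hI : ∀ c, (Pts c).card ≤
      D.card * (κ * ((h + a + 1) * ((2 * (2 * w + 2) + 1) * 2 ^ (h + a)) ^ d)) := by
    intro c
    have h1 : (S c).card ≤ κ * ((h + a + 1) * ((2 * (2 * w + 2) + 1) * 2 ^ (h + a)) ^ d) := by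
      have h3 := (hκ c.1 (c.2.1 * h + a) (h + a) (2 * w + 2) ((w : ℤ) • c.2.2)).2
      rwa [Set.ncard_eq_toFinset_card _
        (hκ c.1 (c.2.1 * h + a) (h + a) (2 * w + 2) ((w : ℤ) • c.2.2)).1] at h3
    refine Finset.card_image_le.trans ?_
    rw [Finset.card_product, mul_comm]
    exact Nat.mul_le_mul_left _ h1
  have hPts : ∀ x, ∀ c ∈ Ctr x, x ∈ Pts c := by
    intro x c hc
    obtain ⟨g, hg, hc⟩ := Finset.mem_biUnion.1 hc
    obtain ⟨z, hz, rfl⟩ := Finset.mem_image.1 hc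
    refine Finset.mem_image.2 ⟨(x * g, g), Finset.mem_product.2 ⟨?_, hg⟩, by
      show x * g * g⁻¹ = x
      group⟩
    refine (Set.Finite.mem_toFinset _).2 ⟨rfl, ?_, ?_, ?_⟩
    · show (slab f h (x * g) + 1) * (h : ℤ) + a - ((h + a : ℕ) : ℤ) ≤ (f (x * g)).1
      have h3 : (h : ℤ) * ((f (x * g)).1 / h) ≤ (f (x * g)).1 := Int.mul_ediv_self_le hhpos.ne'
      have h4 : slab f h (x * g) = (f (x * g)).1 / h := rfl
      rw [h4]
      push_cast
      have h5 : ((f (x * g)).1 / h + 1) * (h : ℤ) + a - (h + a) = h * ((f (x * g)).1 / h) := by ring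
      rw [h5]
      exact h3
    · show (f (x * g)).1 ≤ (slab f h (x * g) + 1) * (h : ℤ) + a
      have h3 : (f (x * g)).1 < ((f (x * g)).1 / h + 1) * h := Int.lt_ediv_add_one_mul_self _ hhpos
      have h4 : slab f h (x * g) = (f (x * g)).1 / h := rfl
      rw [h4]
      omega
    · have h3 := (Finset.mem_filter.1 hz).2
      rw [hP] at h3
      exact h3
  obtain ⟨φ, hφ⟩ := Pool.Agent.Helper75.Apc.exists_assignment Ctr Wd Pts (2 * d + 1)
    (D.card * 7 ^ d) (D.card * (κ * ((h + a + 1) * ((2 * (2 * w + 2) + 1) * 2 ^ (h + a)) ^ d)))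
    (7 * D.card) (by omega) hQ hI hPts hWd (by omega) (by
      rw [Nat.add_sub_cancel]
      exact hnum)
  refine ⟨fun v => w + (φ v).val, fun v => ?_, ?_⟩
  · have h3 := (φ v).isLt
    rw [← hw]
    show w ≤ w + (φ v).val ∧ w + (φ v).val < 2 * w
    omega
  · intro x Q hQ'
    have hsub : Q ⊆ ((Ctr x).filter fun c => φ c ∈ Wd x c).image Prod.fst := by
      intro c hc
      obtain ⟨y, hy, hyD, hyc⟩ := hQ' c hc
      obtain ⟨z, hz1, hz2⟩ := hy
      rw [← hw] at hz1 hz2
      have hxy : x * (x⁻¹ * y) = y := by group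
      have hPy : P y = pos f h a y (slab f h y + 1) := by rw [hP]
      rw [← hPy] at hz1 hz2
      have hlt := (φ ((y : G ⧸ L), slab f h y + 1, z)).isLt
      replace hz1 : nrm (P y - (w : ℤ) • z) ≤
        w + (φ ((y : G ⧸ L), slab f h y + 1, z)).val + 3 := hz1
      replace hz2 : w + (φ ((y : G ⧸ L), slab f h y + 1, z)).val ≤
        nrm (P y - (w : ℤ) • z) + 3 := hz2
      refine Finset.mem_image.2 ⟨((y : G ⧸ L), slab f h y + 1, z), Finset.mem_filter.2 ⟨?_, ?_⟩, hyc⟩
      · refine Finset.mem_biUnion.2 ⟨x⁻¹ * y, hyD, Finset.mem_image.2 ⟨z, ?_, ?_⟩⟩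
        · rw [hxy]
          exact mem_zs hw4 (by omega)
        · rw [hxy]
      · refine Finset.mem_biUnion.2 ⟨x⁻¹ * y, hyD, Finset.mem_filter.2 ⟨Finset.mem_univ _, ?_⟩⟩
        rw [hxy]
        exact ⟨hz1, hz2⟩
    have h3 := (Finset.card_le_card hsub).trans Finset.card_image_le
    have h4 := hφ x
    omega

end Pool.Agent.Helper80.HY
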