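import Pool.Agent.Helper80.HY.FewFam
import Pool.Agent.Helper80.HY.Asdim
import Pool.Agent.Helper80.HY.VertEx
import Pool.Agent.Helper80.HY.BlkEx
import Pool.Agent.Helper80.HY.Horiz

/-!
# HY-16: separation

PROOF. Let `t = 2 ^ (d + 1)`, `T ⊆ L` and `S` be given. Let `a` be such that `NearT a (f x) (f (x * s))` for all `s ∈ T`, `x` (maximum over `T` of the constants in `hf.near`, `near_mono`). `few_families L hf.asdim S (2 * d)` gives `D₁`, `E₁`; `exists_radii hf a D₁` gives `h`, `r`; let `A₁` be the families for `W = {bad}`.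
`β` from `exists_blk` with `V = {x | ¬ bad ..}`; `q` from `horiz β S`; `few_families L hf.asdim S q` gives `D₂`, `E₂`; `horiz` with `D₂` gives `M`, `F`, `E₃`; `A₂` the families for `W = F`. Define `w x = 2 * t + 1` if `x ∈ M`; otherwise `w x = i + 1` if `x ∈ F`, with `i < t` such that `x ∈ A₂ i`; otherwise `w x = t + 1 + i` if `x` is bad, with
`x ∈ A₁ i`; otherwise `0`. `{w = 0} ⊆ V \ (M ∪ F)`, `{w = j}` is contained in `A₂ i` or in `A₁ i` or in `M` or is empty (`Bdd.mono`, `bdd_empty`), with `E = E₁ ∪ E₂ ∪ E₃`.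
-/

set_option autoImplicit false

namespace Pool.Agent.Helper80.HY

open Pool.Agent.Helper65.TH Pool.Agent.Helper65.GN

variable {G : Type*} [Group G] {d : ℕ}

theorem sep_of_emb {L : Subgroup G} {f : G → Tile d} (hf : Emb L f) :
    Sep ⊤ L (2 * 2 ^ (d + 1) + 1) := by
  classical
  set t : ℕ := 2 ^ (d + 1) with ht
  intro T S hT _
  -- the constant for `T`
  obtain ⟨a, ha⟩ : ∃ a : ℕ, ∀ s ∈ T, ∀ x, NearT a (f x) (f (x * s)) := by
    have h1 : ∀ s : G, ∃ a : ℕ, s ∈ T → ∀ x, NearT a (f x) (f (x * s)) := by
      intro s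
      by_cases hs : s ∈ T
      · obtain ⟨a, ha⟩ := hf.near s (hT s hs)
        exact ⟨a, fun _ => ha⟩
      · exact ⟨0, fun h => absurd h hs⟩
    choose A hA using h1
    refine ⟨T.sup A, ?_⟩
    intro s hs x
    exact near_mono (Finset.le_sup (f := A) hs) (hA s hs x)
  obtain ⟨D₁, E₁, hfam1⟩ := few_families L hf.asdim S (2 * d)
  obtain ⟨h, hah, h2, r, hr, hfew⟩ := exists_radii hf a D₁
  obtain ⟨A₁, hA₁, hB₁⟩ := hfam1 _ hfew
  obtain ⟨β⟩ := exists_blk hf T hT h a hah h2 ha r hr
  obtain ⟨q, hq⟩ := horiz β S
  obtain ⟨D₂, E₂, hfam2⟩ := few_families L hf.asdim S q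
  obtain ⟨M, F, E₃, hM, hF, hV⟩ := hq D₂
  obtain ⟨A₂, hA₂, hB₂⟩ := hfam2 F hF
  -- the indices
  have hex1 : ∀ x : G, ∃ i : ℕ, bad L f h a r x → ∃ hi : i < t, x ∈ A₁ ⟨i, hi⟩ := by
    intro x
    by_cases hx : bad L f h a r x
    · obtain ⟨i, hi⟩ := hA₁ x hx
      exact ⟨i.1, fun _ => ⟨i.2, hi⟩⟩
    · exact ⟨0, fun h => absurd h hx⟩
  have hex2 : ∀ x : G, ∃ i : ℕ, x ∈ F → ∃ hi : i < t, x ∈ A₂ ⟨i, hi⟩ := by
    intro x
    by_cases hx : x ∈ F
    · obtain ⟨i, hi⟩ := hA₂ x hx
      exact ⟨i.1, fun _ => ⟨i.2, hi⟩⟩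
    · exact ⟨0, fun h => absurd h hx⟩
  choose i₁ hi₁ using hex1
  choose i₂ hi₂ using hex2
  set w : G → ℕ := fun x => if x ∈ M then 2 * t + 1 else if x ∈ F then i₂ x + 1 else
    if bad L f h a r x then t + 1 + i₁ x else 0 with hw
  refine ⟨w, E₁ ∪ E₂ ∪ E₃, ?_, ?_, ?_⟩
  · intro x
    by_cases hxM : x ∈ M
    · simp [hw, hxM]
    · by_cases hxF : x ∈ F
      · obtain ⟨hlt, -⟩ := hi₂ x hxF
        simp only [hw, hxM, hxF, if_true, if_false]
        omega
      · by_cases hb : bad L f h a r x
        · obtain ⟨hlt, -⟩ := hi₁ x hb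
          simp only [hw, hxM, hxF, hb, if_true, if_false]
          omega
        · simp [hw, hxM, hxF, hb]
  · refine hV.mono (Set.Subset.refl _) ?_ Finset.subset_union_right
    intro x hx
    have hx0 : w x = 0 := hx
    by_cases hxM : x ∈ M
    · simp [hw, hxM] at hx0
    · by_cases hxF : x ∈ F
      · simp [hw, hxM, hxF] at hx0
      · by_cases hb : bad L f h a r x
        · simp [hw, hxM, hxF, hb] at hx0
        · refine ⟨hb, ?_⟩
          rintro (h' | h')
          · exact hxM h'
          · exact hxF h'
  · intro i hi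
    by_cases h1 : i ≤ t
    · have hlt : i - 1 < t := by omega
      refine (hB₂ ⟨i - 1, hlt⟩).mono (Set.Subset.refl _) ?_
        (Finset.subset_union_right.trans Finset.subset_union_left)
      intro x hx
      have hx0 : w x = i := hx
      by_cases hxM : x ∈ M
      · simp only [hw, hxM, if_true] at hx0
        omega
      · by_cases hxF : x ∈ F
        · simp only [hw, hxM, hxF, if_true, if_false] at hx0
          obtain ⟨hlt', hmem⟩ := hi₂ x hxF
          have : (⟨i - 1, hlt⟩ : Fin t) = ⟨i₂ x, hlt'⟩ := by
            ext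
            show i - 1 = i₂ x
            omega
          rw [this]
          exact hmem
        · by_cases hb : bad L f h a r x
          · simp only [hw, hxM, hxF, hb, if_true, if_false] at hx0
            omega
          · simp only [hw, hxM, hxF, hb, if_false] at hx0
            omega
    · by_cases h2t : i ≤ 2 * t
      · have hlt : i - (t + 1) < t := by omega
        refine (hB₁ ⟨i - (t + 1), hlt⟩).mono (Set.Subset.refl _) ?_
          (Finset.subset_union_left.trans Finset.subset_union_left)
        intro x hx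
        have hx0 : w x = i := hx
        by_cases hxM : x ∈ M
        · simp only [hw, hxM, if_true] at hx0
          omega
        · by_cases hxF : x ∈ F
          · simp only [hw, hxM, hxF, if_true, if_false] at hx0
            obtain ⟨hlt', hmem⟩ := hi₂ x hxF
            omega
          · by_cases hb : bad L f h a r x
            · simp only [hw, hxM, hxF, hb, if_true, if_false] at hx0
              obtain ⟨hlt', hmem⟩ := hi₁ x hb
              have : (⟨i - (t + 1), hlt⟩ : Fin t) = ⟨i₁ x, hlt'⟩ := by
                ext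
                show i - (t + 1) = i₁ x
                omega
              rw [this]
              exact hmem
            · simp only [hw, hxM, hxF, hb, if_false] at hx0
              omega
      · refine hM.mono (Set.Subset.refl _) ?_ Finset.subset_union_right
        intro x hx
        have hx0 : w x = i := hx
        by_cases hxM : x ∈ M
        · exact hxM
        · exfalso
          by_cases hxF : x ∈ F
          · simp only [hw, hxM, hxF, if_true, if_false] at hx0
            obtain ⟨hlt', hmem⟩ := hi₂ x hxF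
            omega
          · by_cases hb : bad L f h a r x
            · simp only [hw, hxM, hxF, hb, if_true, if_false] at hx0
              obtain ⟨hlt', hmem⟩ := hi₁ x hb
              omega
            · simp only [hw, hxM, hxF, hb, if_false] at hx0
              omega

end Pool.Agent.Helper80.HY
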