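import Pool.Agent.Helper65.FP.Vir
import Pool.Agent.Helper80.HY.SepEmb
import Pool.Agent.Helper80.HY.HypEmb

/-!
# HY-19: the relation `CutH n K L` and its consequence `Sep K L n`
-/

set_option autoImplicit false

namespace Pool.Agent.Helper80.HY

open Pool.Agent.Helper65.TH Pool.Agent.Helper65.GN Pool.Agent.Helper65.FP
open scoped Pointwise

/-- `CutH n K L` (`L` is cut by `n` families in `K`) is the smallest relation with the following
properties.
`hyp`: if `L` embeds coarsely into the hyperbolic space of dimension `d + 1`, then `L` is cut by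
`2 ^ (d + 2) + 1` families in the whole group.
`asdim`: if `K` has asymptotic dimension less than `t` then `CutH t K K`.
`growth`: if `T` is finite, symmetric, contains `1` and `T ^ k` has at most `C * (k + 1) ^ d` elements for
all `k`, then the subgroup generated by `T` is cut by `d` families in the whole group.
`mono`: the number `n` can be enlarged, both subgroups can be made smaller.
`index`: `L` can be replaced by a subgroup `L'` of `K` containing `L` with finite index.
`free`: if subgroups `A i` of `K` (`i < r`) generate their free product and `CutH (n i) K (A i)`, then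
the group generated by them is cut by `∑ i, n i + 1` families in `K`.
`comm`, `rooted`: `K` (containing `L`) can be replaced by a larger subgroup `K'` by which it is
commensurated, or in which it is rooted.
`union`: if `L` is cut by `n` families in all members of a directed set of subgroups, then also in
their union. -/
inductive CutH {G : Type*} [Group G] : ℕ → Subgroup G → Subgroup G → Prop
  | hyp (L : Subgroup G) (d : ℕ) (h : HypEmb L d) : CutH (2 ^ (d + 2) + 1) ⊤ L
  | asdim (K : Subgroup G) (t : ℕ) (h : AsdimLT K t) : CutH t K K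
  | growth (T : Finset G) (C d : ℕ) (h1 : (1 : G) ∈ T) (hinv : ∀ t ∈ T, t⁻¹ ∈ T)
      (h : ∀ k : ℕ, ((T : Set G) ^ k).ncard ≤ C * (k + 1) ^ d) :
      CutH d ⊤ (Subgroup.closure (T : Set G))
  | mono (n n' : ℕ) (K K' L L' : Subgroup G) (h : CutH n K L) (hn : n ≤ n') (hK : K' ≤ K)
      (hL : L' ≤ L) : CutH n' K' L'
  | index (n : ℕ) (K L L' : Subgroup G) (h : CutH n K L) (hK : L' ≤ K) (hL : L ≤ L')
      (hi : L.relIndex L' ≠ 0) : CutH n K L'
  | free (K : Subgroup G) (r : ℕ) (A : Fin r → Subgroup G) (n : Fin r → ℕ) (hA : ∀ i, A i ≤ K)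
      (hinj : Function.Injective (Monoid.CoprodI.lift fun i => (A i).subtype))
      (h : ∀ i, CutH (n i) K (A i)) : CutH (∑ i, n i + 1) K (⨆ i, A i)
  | comm (n : ℕ) (K K' L : Subgroup G) (h : CutH n K L) (hL : L ≤ K) (hK : K ≤ K')
      (hc : Commensurated K K') : CutH n K' L
  | rooted (n : ℕ) (K K' L : Subgroup G) (h : CutH n K L) (hL : L ≤ K) (hK : K ≤ K')
      (hr : Rooted K K') : CutH n K' L
  | union (n : ℕ) (L : Subgroup G) (S : Set (Subgroup G)) (hne : S.Nonempty)
      (hdir : DirectedOn (· ≤ ·) S) (h : ∀ K ∈ S, CutH n K L) : CutH n (sSup S) L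

variable {G : Type*} [Group G]

theorem CutH.sep {n : ℕ} {K L : Subgroup G} (h : CutH n K L) : Sep K L n := by
  induction h with
  | hyp L d h =>
    obtain ⟨F, hF⟩ := h.emb
    have h1 := sep_of_emb hF
    have h2 : 2 * 2 ^ (d + 1) + 1 = 2 ^ (d + 2) + 1 := by ring
    rwa [h2] at h1
  | asdim K t h => exact sep_of_asdim K h K
  | growth T C d h1 hinv h => exact sep_growth T h1 hinv C d h
  | mono n n' K K' L L' _ hn hK hL ih => exact sep_mono_n (ih.mono hK hL) hn
  | index n K L L' _ hK _ hi ih => exact sep_index K L L' hK hi ih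
  | free K r A n hA hinj _ ih => exact sep_free K A hA hinj n ih
  | comm n K K' L _ hL hK hc ih => exact sep_comm K K' L hL hK hc.commT ih
  | rooted n K K' L _ hL hK hr ih => exact sep_rooted K K' L hL hK hr ih
  | union n L S hne hdir _ ih =>
    intro T F hT hF
    obtain ⟨K, hK, hFK⟩ := exists_mem_of_directed S hne hdir F hF
    exact ih K hK T F hT hFK

theorem cutH_of_cut {n : ℕ} {K L : Subgroup G} (h : Cut n K L) : CutH n K L := by
  induction h with
  | asdim K t h => exact CutH.asdim K t h
  | growth T C d h1 hinv h => exact CutH.growth T C d h1 hinv h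
  | mono n n' K K' L L' _ hn hK hL ih => exact CutH.mono n n' K K' L L' ih hn hK hL
  | index n K L L' _ hK hL hi ih => exact CutH.index n K L L' ih hK hL hi
  | free K r A n hA hinj _ ih => exact CutH.free K r A n hA hinj ih
  | comm n K K' L _ hL hK hc ih => exact CutH.comm n K K' L ih hL hK hc
  | rooted n K K' L _ hL hK hr ih => exact CutH.rooted n K K' L ih hL hK hr
  | union n L S hne hdir _ ih => exact CutH.union n L S hne hdir ih

/-- every finite subset lies in a subgroup which is cut in the whole group -/
def Nice3 (K : Subgroup G) : Prop :=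
  ∀ T : Finset G, (∀ s ∈ T, s ∈ K) → ∃ (n : ℕ) (L : Subgroup G), (∀ s ∈ T, s ∈ L) ∧ L ≤ K ∧
    CutH n K L

theorem nice3_of_nice2 {K : Subgroup G} (h : Nice2 K) : Nice3 K := by
  intro T hT
  obtain ⟨n, L, h1, h2, h3⟩ := h T hT
  exact ⟨n, L, h1, h2, cutH_of_cut h3⟩

end Pool.Agent.Helper80.HY
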