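import Pool.Agent.Helper65.GN.Union
import Pool.Agent.Helper65.TH.AsdimSub

/-!
# Project HY (MP_2c6f0d_gt): leaves coarsely embedded in real hyperbolic spaces. Definitions

`GN.Bdd F A E`: chains in `A` with steps in `F` from `x ∈ A` stay in `x E`.
`TH.AsdimLT L t`: asymptotic dimension less than `t`.
Tiles: `(l, v)` with level `l` and position `v`; the parent is `(l + 1, v / 2)`.
-/

set_option autoImplicit false

namespace Pool.Agent.Helper80.HY

open Pool.Agent.Helper65.TH Pool.Agent.Helper65.GN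

section cosets

variable {G : Type*} [Group G]

/-- the cosets of `L` which contain a point of `W` in `x D` -/
def seen (L : Subgroup G) (W : Set G) (D : Finset G) (x : G) : Set (G ⧸ L) :=
  {c | ∃ y ∈ W, x⁻¹ * y ∈ D ∧ (y : G ⧸ L) = c}

/-- `W` meets at most `q` cosets of `L` in every ball `x D` -/
def Few (L : Subgroup G) (W : Set G) (D : Finset G) (q : ℕ) : Prop :=
  ∀ (x : G) (Q : Finset (G ⧸ L)), (∀ c ∈ Q, c ∈ seen L W D x) → Q.card ≤ q

end cosets

section tiles

/-- tiles: level and position -/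
abbrev Tile (d : ℕ) : Type := ℤ × (Fin d → ℤ)

variable {d : ℕ}

/-- maximum norm -/
def nrm (u : Fin d → ℤ) : ℕ := Finset.univ.sup fun i => (u i).natAbs

/-- position of the ancestor of the tile `p` at the level `m` -/
def up (p : Tile d) (m : ℤ) : Fin d → ℤ := fun i => p.2 i / 2 ^ (m - p.1).toNat

/-- the ancestors at a common level at most `a` above both tiles are equal or adjacent -/
def NearT (a : ℕ) (p p' : Tile d) : Prop :=
  ∃ m : ℤ, p.1 ≤ m ∧ m ≤ p.1 + a ∧ p'.1 ≤ m ∧ m ≤ p'.1 + a ∧ nrm (up p m - up p' m) ≤ 1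

open Classical in
/-- the centre chosen for the position `u`: it depends only on the set of the `z` such that the ball
of radius `r z` around `w z` contains `u` -/
noncomputable def carve (w : ℕ) (r : (Fin d → ℤ) → ℕ) (u : Fin d → ℤ) : Fin d → ℤ :=
  if h : {z : Fin d → ℤ | nrm (u - (w : ℤ) • z) ≤ r z}.Nonempty then h.some else 0

end tiles

section blocks

variable {G : Type*} [Group G] {d : ℕ}

/-- `f` restricted to the cosets of `L` is a uniform coarse embedding into the tiles -/
structure Emb (L : Subgroup G) (f : G → Tile d) : Prop where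
  near : ∀ g ∈ L, ∃ a : ℕ, ∀ x, NearT a (f x) (f (x * g))
  fin : ∀ a : ℕ, {g : G | g ∈ L ∧ ∃ x, NearT a (f x) (f (x * g))}.Finite

/-- coset, index of the level, position -/
abbrev Var (L : Subgroup G) (d : ℕ) : Type _ := (G ⧸ L) × ℤ × (Fin d → ℤ)

/-- the slab of `x`: `h * slab ≤ level < h * (slab + 1)` -/
def slab (f : G → Tile d) (h : ℕ) (x : G) : ℤ := (f x).1 / h

/-- the position of the ancestor at the level `j * h + a` -/
def pos (f : G → Tile d) (h a : ℕ) (x : G) (j : ℤ) : Fin d → ℤ := up (f x) (j * h + a)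

/-- the block of `x` -/
noncomputable def blk (L : Subgroup G) (f : G → Tile d) (h a : ℕ) (r : Var L d → ℕ) (x : G) :
    Var L d :=
  ((x : G ⧸ L), slab f h x + 2,
    carve (2 ^ h) (fun z => r ((x : G ⧸ L), slab f h x + 1, z)) (pos f h a x (slab f h x + 1)))

/-- the parent of a block -/
noncomputable def par (L : Subgroup G) (h : ℕ) (r : Var L d → ℕ) (b : Var L d) : Var L d :=
  (b.1, b.2.1 + 1, carve (2 ^ h) (fun z => r (b.1, b.2.1, z)) b.2.2)

/-- `x` is near the boundary of one of the balls -/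
def bad (L : Subgroup G) (f : G → Tile d) (h a : ℕ) (r : Var L d → ℕ) (x : G) : Prop :=
  ∃ z : Fin d → ℤ,
    nrm (pos f h a x (slab f h x + 1) - ((2 ^ h : ℕ) : ℤ) • z) ≤
      r ((x : G ⧸ L), slab f h x + 1, z) + 3 ∧
    r ((x : G ⧸ L), slab f h x + 1, z) ≤
      nrm (pos f h a x (slab f h x + 1) - ((2 ^ h : ℕ) : ℤ) • z) + 3

/-- A block structure: every point has a block, every block has a parent one level higher in the
same coset, steps in `T` between points of `V` lead to the same block, to the parent or to a child;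
points whose blocks have a common ancestor at most `k` levels higher differ by an element
of `E k`, and there are at most `C * e ^ k` points at most `k` levels below a block. -/
structure Blk (L : Subgroup G) (T : Finset G) (V : Set G) (B : Type*) where
  bl : G → B
  p : B → B
  lev : B → ℤ
  cos : B → G ⧸ L
  E : ℕ → Finset G
  C : ℕ
  e : ℕ
  cos_bl : ∀ x, cos (bl x) = (x : G ⧸ L)
  cos_p : ∀ b, cos (p b) = cos b
  lev_p : ∀ b, lev (p b) = lev b + 1
  step : ∀ x ∈ V, ∀ s ∈ T, x * s ∈ V →
    bl (x * s) = bl x ∨ bl (x * s) = p (bl x) ∨ p (bl (x * s)) = bl x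
  hE : ∀ (k : ℕ) (x y : G), ∀ i ≤ k, ∀ j ≤ k, p^[i] (bl x) = p^[j] (bl y) → x⁻¹ * y ∈ E k
  fin : ∀ (k : ℕ) (b : B), {x | ∃ a ≤ k, p^[a] (bl x) = b}.Finite
  card : ∀ (k : ℕ) (b : B), {x | ∃ a ≤ k, p^[a] (bl x) = b}.ncard ≤ C * e ^ k

end blocks

end Pool.Agent.Helper80.HY
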