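import Pool.Agent.Helper80.HY.Defs

/-!
# HY-01: points which see the same cosets at two scales

PROOF. `S₁ = S₀ ∪ {f * s | f ∈ F, s ∈ S₀}`. Let `F' = {s⁻¹ * f * s' | s, s' ∈ S₀, f ∈ F}.filter (· ∈ L)`; `AsdimLT.lift L h F'` gives `E'`, `A'` (covering `G`, chains in `A' i` with
steps in `F'` stay in `x E'`). `D = {s * e * s'⁻¹ | s, s' ∈ S₀, e ∈ E'}`. Let `W` be given. Fix a choice function `sel : Set (G ⧸ L) → G ⧸ L` with
`sel C ∈ C` for `C` nonempty, and for `x ∈ W` a point `π x ∈ W` with `x⁻¹ * π x ∈ S₀` whose coset is `sel (seen L W S₀ x)` (`x` itself is seen because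
`1 ∈ S₀`, so the set is nonempty). Put `A i = {x ∈ W | seen L W S₀ x = seen L W S₁ x ∧ π x ∈ A' i}`.
Bounded: let `x, x' ∈ A i`, `x⁻¹ * x' ∈ F`. If `c ∈ seen L W S₀ x'` (point `y`, `x'⁻¹ * y ∈ S₀`) then `x⁻¹ * y ∈ F * S₀ ⊆ S₁`, so
`c ∈ seen L W S₁ x = seen L W S₀ x`; by symmetry (`F` symmetric) `seen L W S₀ x = seen L W S₀ x'`, so `π x`, `π x'` are in the same coset and
`(π x)⁻¹ * π x' = (x⁻¹ π x)⁻¹ * (x⁻¹ x') * (x'⁻¹ π x') ∈ F'` (in `L` by `QuotientGroup.eq`). So (`Chain.map`-like induction, `Chain.rec'`; the chain is in `A i`) the points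
`π` of a chain in `A i` form a chain in `A' i` with steps in `F'`, hence `(π x)⁻¹ * π y ∈ E'` and `x⁻¹ * y ∈ D`.
-/

set_option autoImplicit false

namespace Pool.Agent.Helper80.HY

open Pool.Agent.Helper65.TH Pool.Agent.Helper65.GN

variable {G : Type*} [Group G]

theorem few_level (L : Subgroup G) {t : ℕ} (h : AsdimLT L t) (S₀ F : Finset G) (h1 : (1 : G) ∈ S₀)
    (hF : ∀ f ∈ F, f⁻¹ ∈ F) :
    ∃ S₁ D : Finset G, S₀ ⊆ S₁ ∧ ∀ W : Set G, ∃ A : Fin t → Set G,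
      (∀ i, Bdd (F : Set G) (A i) D) ∧
      ∀ x ∈ W, seen L W S₀ x = seen L W S₁ x → ∃ i, x ∈ A i := by
  classical
  let S₁ : Finset G := S₀ ∪ Finset.image₂ (fun a b => a * b) F S₀
  let F' : Finset G := (Finset.image₂ (fun a b => a * b)
    (Finset.image₂ (fun a b => a⁻¹ * b) S₀ F) S₀).filter (fun s => s ∈ L)
  obtain ⟨E', A', hcov, hE⟩ := h.lift L F' (fun s hs => (Finset.mem_filter.1 hs).2)
  let D : Finset G := Finset.image₂ (fun a b => a * b⁻¹)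
    (Finset.image₂ (fun a b => a * b) S₀ E') S₀
  refine ⟨S₁, D, Finset.subset_union_left, fun W => ?_⟩
  let sel : Set (G ⧸ L) → G ⧸ L := fun C => if hC : C.Nonempty then hC.some else ((1 : G) : G ⧸ L)
  have hsel : ∀ C : Set (G ⧸ L), C.Nonempty → sel C ∈ C := by
    intro C hC
    change (if hC : C.Nonempty then hC.some else ((1 : G) : G ⧸ L)) ∈ C
    rw [dif_pos hC]
    exact hC.some_mem
  have hex : ∀ x ∈ W, ∃ y ∈ W, x⁻¹ * y ∈ S₀ ∧ (y : G ⧸ L) = sel (seen L W S₀ x) := by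
    intro x hx
    have hne : (seen L W S₀ x).Nonempty := ⟨(x : G ⧸ L), x, hx, by rwa [inv_mul_cancel], rfl⟩
    exact hsel _ hne
  choose! π hπW hπS hπc using hex
  have hsub : ∀ a b : G, a⁻¹ * b ∈ F → seen L W S₀ b ⊆ seen L W S₁ a := by
    rintro a b hab c ⟨y, hy, hyS, hc⟩
    refine ⟨y, hy, Finset.mem_union_right _ (Finset.mem_image₂.2 ⟨a⁻¹ * b, hab, b⁻¹ * y, hyS, ?_⟩), hc⟩
    group
  refine ⟨fun i => {x | x ∈ W ∧ seen L W S₀ x = seen L W S₁ x ∧ π x ∈ A' i}, fun i => ?_, ?_⟩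
  · intro x hx y hxy
    have key : ∀ a b : G, a ∈ W → seen L W S₀ a = seen L W S₁ a → b ∈ W →
        seen L W S₀ b = seen L W S₁ b → a⁻¹ * b ∈ F → (π a)⁻¹ * π b ∈ (F' : Set G) := by
      intro a b ha ha' hb hb' hab
      have hba : b⁻¹ * a ∈ F := by
        have h2 := hF _ hab
        have h3 : (a⁻¹ * b)⁻¹ = b⁻¹ * a := by group
        rwa [h3] at h2
      have hs : seen L W S₀ a = seen L W S₀ b := by
        apply Set.Subset.antisymm
        · have h4 := hsub b a hba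
          rwa [← hb'] at h4
        · have h4 := hsub a b hab
          rwa [← ha'] at h4
      have hL : (π a)⁻¹ * π b ∈ L := by
        rw [← QuotientGroup.eq, hπc a ha, hπc b hb, hs]
      refine Finset.mem_coe.2 (Finset.mem_filter.2 ⟨Finset.mem_image₂.2
        ⟨(a⁻¹ * π a)⁻¹ * (a⁻¹ * b), Finset.mem_image₂.2 ⟨a⁻¹ * π a, hπS a ha, a⁻¹ * b, hab, rfl⟩,
          b⁻¹ * π b, hπS b hb, ?_⟩, hL⟩)
      group
    have hch : Chain (F' : Set G) (fun b => b ∈ A' i) (π x) (π y) ∧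
        (y ∈ W ∧ seen L W S₀ y = seen L W S₁ y ∧ π y ∈ A' i) := by
      refine hxy.rec' (R := fun z => Chain (F' : Set G) (fun b => b ∈ A' i) (π x) (π z) ∧
        (z ∈ W ∧ seen L W S₀ z = seen L W S₁ z ∧ π z ∈ A' i)) ⟨Chain.refl _ _ _, hx⟩ ?_
      intro a b _ ha hs hb
      exact ⟨ha.1.step (key a b ha.2.1 ha.2.2.1 hb.1 hb.2.1 (Finset.mem_coe.1 hs)) hb.2.2, hb⟩
    have h5 := hE i (π x) hx.2.2 (π y) hch.1
    refine Finset.mem_image₂.2 ⟨(x⁻¹ * π x) * ((π x)⁻¹ * π y), Finset.mem_image₂.2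
      ⟨x⁻¹ * π x, hπS x hx.1, (π x)⁻¹ * π y, h5, rfl⟩, y⁻¹ * π y, hπS y hch.2.1, ?_⟩
    group
  · intro x hx hs
    obtain ⟨i, hi⟩ := hcov (π x)
    exact ⟨i, hx, hs, hi⟩

end Pool.Agent.Helper80.HY
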