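import Pool.Agent.Helper80.HY.Defs

/-!
# Project HY: hyperbolic space. Definitions
-/

set_option autoImplicit false

namespace Pool.Agent.Helper80.HY

/-- the hyperbolic distance of two points of the upper half-space of dimension `d + 1` -/
noncomputable def hdist {d : ℕ} (p q : (Fin d → ℝ) × ℝ) : ℝ :=
  2 * Real.arsinh (√((∑ i, (p.1 i - q.1 i) ^ 2) + (p.2 - q.2) ^ 2) / (2 * √(p.2 * q.2)))

/-- the group `L` (with any proper left-invariant metric) embeds coarsely into the hyperbolic space of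
dimension `d + 1` -/
def HypEmb (L : Type*) [Group L] (d : ℕ) : Prop :=
  ∃ f : L → (Fin d → ℝ) × ℝ, (∀ x, 0 < (f x).2) ∧
    (∀ g, ∃ C, ∀ x, hdist (f x) (f (x * g)) ≤ C) ∧
    ∀ C, {g | ∃ x, hdist (f x) (f (x * g)) ≤ C}.Finite

/-- the tile of a point -/
noncomputable def tile {d : ℕ} (p : (Fin d → ℝ) × ℝ) : Tile d :=
  (Int.log 2 p.2, fun i => ⌊p.1 i / (2 : ℝ) ^ Int.log 2 p.2⌋)

end Pool.Agent.Helper80.HY
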