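import Pool.Agent.Helper80.HY.Win
import Pool.Agent.Helper65.FP.LLL
import Pool.Agent.Helper65.FP.MarksNum

/-!
# HY-14: marked blocks

PROOF: a copy of `exists_marks` (`Pool/Agent/Helper65/FP/Marks.lean`) with small changes. `(N, q)` from `FP.marks_num (β.C * S.card) β.e`, `κ` from its second part with `d = β.C * D.card`; let `k ≥ κ` (`k ≥ 1`). `FP.local_lemma` with the variables `B`, values in `Fin N`, marked = value `0`, `β = N - 1 / 2`; events:
(A) pairs `(x, s)`, `s ∈ S`, with `bl (x * s) ≠ bl x`: support `{bl x, bl (x * s)}` (2 elements), bad values `{0}` (one value);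
(B) families `u` as in the statement: support `win β k u` (`k * (q + 1)` elements, `win_card`), bad values: all values `≠ 0` (`N - 1` values).
`inc b`: (A) the pairs with `bl x = b` or `bl (x * s) = b`: `x` or `x * s` is in the set `{x | ∃ a ≤ 0, p^[a] (bl x) = b}` with at most `C` elements (`β.card 0`), so at most `2 * (C * S.card)` pairs; (B) `win_finite`: at most `(q + 1) * (C * e ^ k) * D.card ^ (q + 1) ≤ (q + 1) * k * e ^ k * (C * D.card) ^ (q + 1)` families
(`C ≤ C ^ (q + 1)`, `1 ≤ k`). The sum is at most the left side in `marks_num`, so `≤ 1 / 2 = N - (N - 1 / 2)`. `M` = the blocks with value `0`.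
-/

set_option autoImplicit false

namespace Pool.Agent.Helper80.HY

variable {G : Type*} [Group G] {L : Subgroup G} {T : Finset G} {V : Set G} {B : Type*}

theorem exists_blk_marks (β : Blk L T V B) (S : Finset G) : ∃ q : ℕ, ∀ D : Finset G, ∃ κ : ℕ,
    ∀ k, κ ≤ k → ∃ M : Set B,
      (∀ x, ∀ s ∈ S, β.bl x ∈ M → β.bl (x * s) ∈ M → β.bl (x * s) = β.bl x) ∧
      ∀ u : Fin (q + 1) → G, (∀ i j, i ≠ j → (u i : G ⧸ L) ≠ (u j : G ⧸ L)) →
        (∀ i j, (u i)⁻¹ * u j ∈ D) → ∃ i, ∃ a < k, β.p^[a] (β.bl (u i)) ∈ M := by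
  classical
  obtain ⟨N, q, hN, hnum⟩ := Pool.Agent.Helper65.FP.marks_num (β.C * S.card) β.e
  refine ⟨q, fun D => ?_⟩
  obtain ⟨κ, hκ1, hκ⟩ := hnum (β.C * D.card)
  refine ⟨κ, fun k hk => ?_⟩
  have hk1 : 1 ≤ k := hκ1.trans hk
  let PA : G × G → Prop := fun p => p.2 ∈ S ∧ β.bl (p.1 * p.2) ≠ β.bl p.1
  let PB : (Fin (q + 1) → G) → Prop := fun u =>
    (∀ i j, i ≠ j → (u i : G ⧸ L) ≠ (u j : G ⧸ L)) ∧ ∀ i j, (u i)⁻¹ * u j ∈ D
  let sp : {p : G × G // PA p} ⊕ {u : Fin (q + 1) → G // PB u} → Finset B :=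
    Sum.elim (fun p => {β.bl p.1.1, β.bl (p.1.1 * p.1.2)}) (fun u => win β k u.1)
  let bad : {p : G × G // PA p} ⊕ {u : Fin (q + 1) → G // PB u} → Finset (Fin N) :=
    Sum.elim (fun _ => Finset.univ.filter fun t => (t : ℕ) = 0)
      (fun _ => Finset.univ.filter fun t => (t : ℕ) ≠ 0)
  let FX : B → Finset G := fun b => (β.fin 0 b).toFinset
  have hFX : ∀ x b, β.bl x = b → x ∈ FX b := by
    intro x b h
    rw [Set.Finite.mem_toFinset]
    exact ⟨0, le_refl _, h⟩
  have hFXc : ∀ b, (FX b).card ≤ β.C := by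
    intro b
    have h := β.card 0 b
    rw [Set.ncard_eq_toFinset_card _ (β.fin 0 b), pow_zero, mul_one] at h
    exact h
  let incA : B → Finset {p : G × G // PA p} := fun b =>
    (((FX b) ×ˢ S) ∪ (((FX b) ×ˢ S).image fun r => (r.1 * r.2⁻¹, r.2))).subtype PA
  let incB : B → Finset {u : Fin (q + 1) → G // PB u} := fun b =>
    ((win_finite β D k (q + 1) b).1.toFinset).subtype PB
  let inc : B → Finset ({p : G × G // PA p} ⊕ {u : Fin (q + 1) → G // PB u}) := fun v =>
    (incA v).disjSum (incB v)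
  have hN' : (1 : ℝ) ≤ N := by exact_mod_cast hN
  have hβ : (0 : ℝ) < (N : ℝ) - 1 / 2 := by linarith
  have hcardA : ∀ v, ((incA v).card : ℝ) ≤ 2 * ((β.C * S.card : ℕ) : ℝ) := by
    intro v
    have h1 : (incA v).card ≤ β.C * S.card + β.C * S.card := by
      rw [Finset.card_subtype]
      refine (Finset.card_filter_le _ _).trans ?_
      have h2 : ((FX v) ×ˢ S).card ≤ β.C * S.card := by
        rw [Finset.card_product]
        exact Nat.mul_le_mul_right _ (hFXc v)
      exact (Finset.card_union_le _ _).trans (Nat.add_le_add h2 (Finset.card_image_le.trans h2))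
    calc ((incA v).card : ℝ) ≤ ((β.C * S.card + β.C * S.card : ℕ) : ℝ) := by exact_mod_cast h1
      _ = 2 * ((β.C * S.card : ℕ) : ℝ) := by push_cast; ring
  have hcardB : ∀ v, ((incB v).card : ℝ) ≤
      (q + 1) * k * (β.e : ℝ) ^ k * ((β.C * D.card : ℕ) : ℝ) ^ (q + 1) := by
    intro v
    have h1 : (incB v).card ≤ (q + 1) * k * β.e ^ k * (β.C * D.card) ^ (q + 1) := by
      have h2 : (incB v).card ≤ (q + 1) * (β.C * β.e ^ k) * D.card ^ (q + 1) := by
        refine le_trans ?_ (win_finite β D k (q + 1) v).2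
        rw [Finset.card_subtype]
        refine (Finset.card_filter_le _ _).trans ?_
        rw [← Set.ncard_eq_toFinset_card _ (win_finite β D k (q + 1) v).1]
      have h3 : β.C ≤ k * β.C ^ (q + 1) := by
        rcases Nat.eq_zero_or_pos β.C with h4 | h4
        · rw [h4]
          exact Nat.zero_le _
        · calc β.C = 1 * β.C ^ 1 := by ring
            _ ≤ k * β.C ^ (q + 1) := Nat.mul_le_mul hk1 (Nat.pow_le_pow_right h4 (by omega))
      calc (incB v).card ≤ (q + 1) * (β.C * β.e ^ k) * D.card ^ (q + 1) := h2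
        _ ≤ (q + 1) * ((k * β.C ^ (q + 1)) * β.e ^ k) * D.card ^ (q + 1) := by gcongr
        _ = (q + 1) * k * β.e ^ k * (β.C * D.card) ^ (q + 1) := by rw [mul_pow]; ring
    calc ((incB v).card : ℝ) ≤ (((q + 1) * k * β.e ^ k * (β.C * D.card) ^ (q + 1) : ℕ) : ℝ) := by
          exact_mod_cast h1
      _ = _ := by push_cast; ring
  have hbadA : (Finset.univ.filter fun t : Fin N => (t : ℕ) = 0).card = 1 := by
    rw [Finset.card_eq_one]
    refine ⟨⟨0, hN⟩, ?_⟩
    ext t
    simp only [Finset.mem_filter, Finset.mem_univ, true_and, Finset.mem_singleton]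
    exact ⟨fun h => Fin.ext h, fun h => by rw [h]⟩
  have hbadB : ((Finset.univ.filter fun t : Fin N => (t : ℕ) ≠ 0).card : ℝ) = (N : ℝ) - 1 := by
    have h1 := Finset.card_filter_add_card_filter_not (s := (Finset.univ : Finset (Fin N)))
      (fun t : Fin N => (t : ℕ) = 0)
    rw [hbadA, Finset.card_univ, Fintype.card_fin] at h1
    have h2 : ((1 + (Finset.univ.filter fun t : Fin N => ¬ (t : ℕ) = 0).card : ℕ) : ℝ) = N := by
      exact_mod_cast h1
    push_cast at h2
    linarith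
  have hex : ∃ f : B → Fin N, ∀ e, ∃ v ∈ sp e, f v ∉ bad e := by
    refine Pool.Agent.Helper65.FP.local_lemma N sp bad ((N : ℝ) - 1 / 2) hβ inc ?_ ?_ ?_
    · -- incidences
      rintro v (⟨⟨x, s⟩, hs, hs1⟩ | ⟨u, hu⟩) hv
      · have h1 : v = β.bl x ∨ v = β.bl (x * s) := by simpa [sp] using hv
        refine Finset.inl_mem_disjSum.2 (Finset.mem_subtype.2 ?_)
        rcases h1 with h1 | h1
        · exact Finset.mem_union_left _ (Finset.mem_product.2 ⟨hFX x v h1.symm, hs⟩)
        · refine Finset.mem_union_right _ (Finset.mem_image.2 ⟨(x * s, s), ?_, ?_⟩)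
          · exact Finset.mem_product.2 ⟨hFX (x * s) v h1.symm, hs⟩
          · exact Prod.ext (mul_inv_cancel_right x s) rfl
      · refine Finset.inr_mem_disjSum.2 (Finset.mem_subtype.2 ?_)
        rw [Set.Finite.mem_toFinset]
        exact ⟨hu.2, hv⟩
    · -- nonempty supports
      rintro (p | u)
      · exact ⟨β.bl p.1.1, Finset.mem_insert_self _ _⟩
      · have h1 := win_card β k (q + 1) u.1 u.2.1
        have h2 : 0 < (win β k u.1).card := by
          rw [h1]
          positivity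
        exact Finset.card_pos.1 h2
    · -- the sum
      intro v
      rw [Finset.sum_disjSum]
      have hA : ∑ e ∈ incA v, ((bad (Sum.inl e)).card : ℝ) ^ (sp (Sum.inl e)).card /
          ((N : ℝ) - 1 / 2) ^ ((sp (Sum.inl e)).card - 1) ≤
          (2 * ((β.C * S.card : ℕ) : ℝ)) / ((N : ℝ) - 1 / 2) := by
        have h1 : ∀ e ∈ incA v, ((bad (Sum.inl e)).card : ℝ) ^ (sp (Sum.inl e)).card /
            ((N : ℝ) - 1 / 2) ^ ((sp (Sum.inl e)).card - 1) = 1 / ((N : ℝ) - 1 / 2) := by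
          intro e _
          have h2 : (bad (Sum.inl e)).card = 1 := hbadA
          have h3 : (sp (Sum.inl e)).card = 2 := by
            refine Finset.card_pair ?_
            intro h4
            exact e.2.2 h4.symm
          rw [h2, h3]
          norm_num
        rw [Finset.sum_congr rfl h1, Finset.sum_const, nsmul_eq_mul]
        rw [mul_one_div]
        gcongr
        exact hcardA v
      have hB : ∑ e ∈ incB v, ((bad (Sum.inr e)).card : ℝ) ^ (sp (Sum.inr e)).card /
          ((N : ℝ) - 1 / 2) ^ ((sp (Sum.inr e)).card - 1) ≤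
          ((q + 1 : ℝ) * k * (β.e : ℝ) ^ k * ((β.C * D.card : ℕ) : ℝ) ^ (q + 1)) *
          (((N : ℝ) - 1) ^ (k * (q + 1)) / ((N : ℝ) - 1 / 2) ^ (k * (q + 1) - 1)) := by
        have h1 : ∀ e ∈ incB v, ((bad (Sum.inr e)).card : ℝ) ^ (sp (Sum.inr e)).card /
            ((N : ℝ) - 1 / 2) ^ ((sp (Sum.inr e)).card - 1) =
            ((N : ℝ) - 1) ^ (k * (q + 1)) / ((N : ℝ) - 1 / 2) ^ (k * (q + 1) - 1) := by
          intro e _
          have h2 : ((bad (Sum.inr e)).card : ℝ) = (N : ℝ) - 1 := hbadB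
          have h3 : (sp (Sum.inr e)).card = k * (q + 1) := win_card β k (q + 1) e.1 e.2.1
          rw [h2, h3]
        rw [Finset.sum_congr rfl h1, Finset.sum_const, nsmul_eq_mul]
        refine mul_le_mul_of_nonneg_right (hcardB v) ?_
        have h2 : (0 : ℝ) ≤ (N : ℝ) - 1 := by linarith
        positivity
      have h3 := hκ k hk
      calc _ ≤ (2 * ((β.C * S.card : ℕ) : ℝ)) / ((N : ℝ) - 1 / 2) +
            ((q + 1 : ℝ) * k * (β.e : ℝ) ^ k * ((β.C * D.card : ℕ) : ℝ) ^ (q + 1)) *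
            (((N : ℝ) - 1) ^ (k * (q + 1)) / ((N : ℝ) - 1 / 2) ^ (k * (q + 1) - 1)) :=
            add_le_add hA hB
        _ ≤ 1 / 2 := h3
        _ = N - ((N : ℝ) - 1 / 2) := by ring
  obtain ⟨f, hf⟩ := hex
  refine ⟨{x | (f x : ℕ) = 0}, ?_, ?_⟩
  · intro x s hs hx hxs
    by_contra hs1
    obtain ⟨v, hv, hvb⟩ := hf (Sum.inl ⟨(x, s), hs, hs1⟩)
    have h1 : v = β.bl x ∨ v = β.bl (x * s) := by simpa [sp] using hv
    apply hvb
    refine Finset.mem_filter.2 ⟨Finset.mem_univ _, ?_⟩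
    rcases h1 with rfl | rfl
    · exact hx
    · exact hxs
  · intro u h2 h3
    obtain ⟨v, hv, hvb⟩ := hf (Sum.inr ⟨u, h2, h3⟩)
    obtain ⟨⟨i, b⟩, _, hib⟩ := Finset.mem_image.1 (show v ∈ win β k u from hv)
    refine ⟨i, (b : ℕ), b.2, ?_⟩
    have h4 : β.p^[(b : ℕ)] (β.bl (u i)) = v := hib
    rw [h4]
    by_contra h5
    exact hvb (Finset.mem_filter.2 ⟨Finset.mem_univ _, h5⟩)

end Pool.Agent.Helper80.HY
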