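import Pool.Agent.Helper80.HY.Defs

/-!
# HY-03: the maximum norm and ancestors

PROOFS. `nrm_le_iff`: `Finset.sup_le_iff` and `Int.natAbs`; the others coordinatewise from it.
`up_up`: `Int.ediv_ediv_of_nonneg` (`a / b / c = a / (b * c)`) and `2 ^ (m - l).toNat * 2 ^ (m' - m).toNat = 2 ^ (m' - l).toNat`.
`up_close`: coordinatewise, from `up_up`: if `|u - u'| ≤ 1` then `|u / K - u' / K| ≤ 1` for `K ≥ 1`.
`up_mul`: `0 ≤ u - K * (u / K) ≤ K - 1` with `K = 2 ^ h`, and `up_up`.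
`close_div`: if `|u - u'| ≤ K` with `K ≥ 1` then `|u / K - u' / K| ≤ 1`: `K * (u / K) ≤ u < K * (u / K) + K`, so `K * (u / K - u' / K) < |u - u'| + K ≤ 2 K`.
`near_refl`: `m = p.1`. `near_symm`, `near_mono`: trivial. `nrm_mul_le`: if `w * |x| ≤ 3 * w + 1` and `2 ≤ w` then `|x| ≤ 3`.
-/

set_option autoImplicit false

namespace Pool.Agent.Helper80.HY

variable {d : ℕ}

theorem nrm_le_iff (u : Fin d → ℤ) (c : ℕ) : nrm u ≤ c ↔ ∀ i, |u i| ≤ c := by
  unfold nrm
  rw [Finset.sup_le_iff]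
  constructor
  · intro h i
    have h1 := h i (Finset.mem_univ i)
    rw [Int.abs_eq_natAbs]
    exact_mod_cast h1
  · intro h i _
    have h1 := h i
    rw [Int.abs_eq_natAbs] at h1
    exact_mod_cast h1

private theorem le_nrm (u : Fin d → ℤ) (i : Fin d) : |u i| ≤ (nrm u : ℤ) :=
  (nrm_le_iff u (nrm u)).1 le_rfl i

theorem nrm_sub_comm (u v : Fin d → ℤ) : nrm (u - v) = nrm (v - u) := by
  unfold nrm
  congr 1
  funext i
  rw [Pi.sub_apply, Pi.sub_apply, ← Int.natAbs_neg, neg_sub]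

theorem nrm_triangle (u v w : Fin d → ℤ) : nrm (u - w) ≤ nrm (u - v) + nrm (v - w) := by
  rw [nrm_le_iff]
  intro i
  have h1 := le_nrm (u - v) i
  have h2 := le_nrm (v - w) i
  have h3 : (u - w) i = (u - v) i + (v - w) i := by
    simp only [Pi.sub_apply]
    ring
  rw [h3]
  push_cast
  exact (abs_add_le _ _).trans (add_le_add h1 h2)

theorem nrm_smul (w : ℕ) (u : Fin d → ℤ) : nrm ((w : ℤ) • u) = w * nrm u := by
  apply le_antisymm
  · rw [nrm_le_iff]
    intro i
    rw [Pi.smul_apply, smul_eq_mul, abs_mul, Nat.abs_cast]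
    push_cast
    exact mul_le_mul_of_nonneg_left (le_nrm u i) (by positivity)
  · by_cases hw : w = 0
    · rw [hw, zero_mul]
      exact Nat.zero_le _
    · have hw' : 0 < w := Nat.pos_of_ne_zero hw
      have h : nrm u ≤ nrm ((w : ℤ) • u) / w := by
        rw [nrm_le_iff]
        intro i
        have h1 := le_nrm ((w : ℤ) • u) i
        rw [Pi.smul_apply, smul_eq_mul, abs_mul, Nat.abs_cast] at h1
        push_cast
        rw [Int.le_ediv_iff_mul_le (by exact_mod_cast hw')]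
        linarith
      have h2 := Nat.mul_le_of_le_div _ _ _ h
      rw [mul_comm]
      exact h2

private theorem pow_mul_pow {l m m' : ℤ} (h1 : l ≤ m) (h2 : m ≤ m') :
    (2 : ℤ) ^ (m - l).toNat * 2 ^ (m' - m).toNat = 2 ^ (m' - l).toNat := by
  rw [← pow_add]
  congr 1
  omega

theorem up_up (p : Tile d) {m m' : ℤ} (h1 : p.1 ≤ m) (h2 : m ≤ m') (i : Fin d) :
    up p m i / 2 ^ (m' - m).toNat = up p m' i := by
  unfold up
  rw [← pow_mul_pow h1 h2, Int.ediv_ediv_of_nonneg (by positivity)]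

/-- quotients of close numbers -/
private theorem close_div (a b K : ℤ) (hK : 0 < K) (h : |a - b| ≤ K) : |a / K - b / K| ≤ 1 := by
  have h1 := Int.mul_ediv_add_emod a K
  have h2 := Int.mul_ediv_add_emod b K
  have h3 := Int.emod_nonneg a hK.ne'
  have h4 := Int.emod_nonneg b hK.ne'
  have h5 := Int.emod_lt_of_pos a hK
  have h6 := Int.emod_lt_of_pos b hK
  rw [abs_le] at h ⊢
  obtain ⟨h7, h8⟩ := h
  constructor
  · by_contra hc
    push Not at hc
    have h9 : a / K - b / K ≤ -2 := by omega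
    nlinarith
  · by_contra hc
    push Not at hc
    have h9 : 2 ≤ a / K - b / K := by omega
    nlinarith

/-- closeness at one level gives closeness at the higher levels -/
theorem up_close {p p' : Tile d} {m m' : ℤ} (h1 : p.1 ≤ m) (h2 : p'.1 ≤ m) (h3 : m ≤ m')
    (h : nrm (up p m - up p' m) ≤ 1) : nrm (up p m' - up p' m') ≤ 1 := by
  rw [nrm_le_iff] at h ⊢
  intro i
  have h4 := h i
  rw [Pi.sub_apply] at h4 ⊢
  rw [← up_up p h1 h3 i, ← up_up p' h2 h3 i]
  have hK : (0 : ℤ) < 2 ^ (m' - m).toNat := by positivity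
  push_cast at h4 ⊢
  exact close_div _ _ _ hK (h4.trans (by omega))

/-- if the positions differ by at most `2 ^ k` then the positions `k` levels higher differ by at most `1` -/
theorem close_up {p p' : Tile d} {m : ℤ} (k : ℕ) (h1 : p.1 ≤ m) (h2 : p'.1 ≤ m)
    (h : nrm (up p m - up p' m) ≤ 2 ^ k) : nrm (up p (m + k) - up p' (m + k)) ≤ 1 := by
  rw [nrm_le_iff] at h ⊢
  intro i
  have h4 := h i
  rw [Pi.sub_apply] at h4 ⊢
  have h3 : m ≤ m + k := by omega
  rw [← up_up p h1 h3 i, ← up_up p' h2 h3 i]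
  have hk : (m + k - m).toNat = k := by omega
  rw [hk]
  have hK : (0 : ℤ) < 2 ^ k := by positivity
  push_cast at h4 ⊢
  exact close_div _ _ _ hK h4

/-- one block level higher -/
theorem up_mul (p : Tile d) {m : ℤ} (h : ℕ) (h1 : p.1 ≤ m) :
    nrm (up p m - ((2 ^ h : ℕ) : ℤ) • up p (m + h)) ≤ 2 ^ h - 1 := by
  rw [nrm_le_iff]
  intro i
  have h3 : m ≤ m + h := by omega
  rw [Pi.sub_apply, Pi.smul_apply, smul_eq_mul, ← up_up p h1 h3 i]
  have hk : (m + h - m).toNat = h := by omega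
  rw [hk]
  have hK : (0 : ℤ) < 2 ^ h := by positivity
  have e1 := Int.mul_ediv_add_emod (up p m i) (2 ^ h)
  have e2 := Int.emod_nonneg (up p m i) hK.ne'
  have e3 := Int.emod_lt_of_pos (up p m i) hK
  have e4 : (((2 ^ h - 1 : ℕ)) : ℤ) = 2 ^ h - 1 := by
    rw [Nat.cast_sub Nat.one_le_two_pow]
    push_cast
    ring
  rw [e4]
  push_cast
  rw [abs_le]
  constructor <;> linarith

theorem near_refl (p : Tile d) : NearT 0 p p := by
  refine ⟨p.1, le_rfl, by simp, le_rfl, by simp, ?_⟩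
  rw [nrm_le_iff]
  intro i
  simp

theorem near_symm {a : ℕ} {p p' : Tile d} (h : NearT a p p') : NearT a p' p := by
  obtain ⟨m, h1, h2, h3, h4, h5⟩ := h
  exact ⟨m, h3, h4, h1, h2, by rw [nrm_sub_comm]; exact h5⟩

theorem near_mono {a b : ℕ} (hab : a ≤ b) {p p' : Tile d} (h : NearT a p p') : NearT b p p' := by
  obtain ⟨m, h1, h2, h3, h4, h5⟩ := h
  exact ⟨m, h1, by omega, h3, by omega, h5⟩

/-- near tiles have close ancestors at every level at least `a` above one of them -/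
theorem near_up {a : ℕ} {p p' : Tile d} (h : NearT a p p') {m : ℤ} (hm : p.1 + a ≤ m) :
    p.1 ≤ m ∧ p'.1 ≤ m ∧ nrm (up p m - up p' m) ≤ 1 := by
  obtain ⟨m0, h1, h2, h3, h4, h5⟩ := h
  exact ⟨by omega, by omega, up_close h1 h3 (by omega) h5⟩

theorem near_level {a : ℕ} {p p' : Tile d} (h : NearT a p p') : |p.1 - p'.1| ≤ a := by
  obtain ⟨m0, h1, h2, h3, h4, h5⟩ := h
  rw [abs_le]
  constructor <;> omega

end Pool.Agent.Helper80.HY
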