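import Pool.Agent.Helper80.HY.HDefs
import Pool.Agent.Helper80.HY.Norm

/-!
# HY-17: hyperbolic distance and tiles

PROOFS. `up_tile`: `⌊x / 2 ^ l⌋ / 2 ^ n = ⌊x / 2 ^ l / 2 ^ n⌋` for natural `n = (m - l).toNat` (`Int.floor_div_natCast` or similar: `⌊z / n⌋ = ⌊z⌋ / n` for a natural number `n`), `2 ^ l * 2 ^ n = 2 ^ m` (`zpow_add₀`, `zpow_natCast`).
`near_of_hdist`: let `K = 4 * sinh (C / 2) ^ 2` (if `C < 0` the statement is empty since `hdist ≥ 0`, or replace `C` by `|C|`). `hdist p q ≤ C` means `√(Σ + (y - y')²) ≤ 2 √(y y') sinh (C / 2)` (`Real.arsinh_le_arsinh`, `Real.arsinh_sinh`, `Real.sinh_strictMono`), so `Σ (x i - x' i)² + (y - y')² ≤ K * y * y'`.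
So `y' ≤ (K + 2) * y` and `y ≤ (K + 2) * y'` (`y² + y'² ≤ (K + 2) y y'`) and `|x i - x' i| ≤ √K * √(y y')`. Let `s : ℕ` with `2 ^ s ≥ K + 2` and `2 ^ s ≥ 2 * √K`; `l = Int.log 2 y`, `2 ^ l ≤ y < 2 ^ (l + 1)` (`Int.zpow_log_le_self`, `Int.lt_zpow_succ_log_self`), the same for `l'`. Then `|l - l'| ≤ s + 1`. Take `m = max l l' + s`, `a = 2 * s + 1`:
`√(y y') ≤ 2 ^ (max l l' + 1)`, so `|x i - x' i| ≤ √K * 2 * 2 ^ (max l l') ≤ 2 ^ m`, so `|x i / 2 ^ m - x' i / 2 ^ m| ≤ 1` and the floors differ by at most `1` (`Int.floor_le_floor`, `Int.floor_add_one`); conclude with `up_tile` and `nrm_le_iff`.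
`hdist_of_near`: `C = 2 * arsinh (√(4 * (d + 1) * 4 ^ a) / 2)`. Let `m` be the level: `|x i - x' i| ≤ 2 * 2 ^ m` (floors of `x i / 2 ^ m`, `x' i / 2 ^ m` differ by at most `1`), `2 ^ (m - a) ≤ y, y' < 2 ^ (m + 1)`, so `Σ + (y - y')² ≤ (d + 1) * 4 * 4 ^ m ≤ 4 * (d + 1) * 4 ^ a * (y * y')`. `Real.arsinh_le_arsinh`, `Real.sqrt_le_sqrt`.
-/

set_option autoImplicit false

namespace Pool.Agent.Helper80.HY

variable {d : ℕ}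

theorem up_tile (p : (Fin d → ℝ) × ℝ) {m : ℤ} (hm : (tile p).1 ≤ m) (i : Fin d) :
    up (tile p) m i = ⌊p.1 i / (2 : ℝ) ^ m⌋ := by
  change ⌊p.1 i / (2 : ℝ) ^ Int.log 2 p.2⌋ / 2 ^ (m - Int.log 2 p.2).toNat = ⌊p.1 i / (2 : ℝ) ^ m⌋
  have hm' : Int.log 2 p.2 ≤ m := hm
  generalize Int.log 2 p.2 = l at hm' ⊢
  have h1 : (2 : ℝ) ^ m = (2 : ℝ) ^ l * (2 : ℝ) ^ (m - l).toNat := by
    rw [← zpow_natCast, ← zpow_add₀ (by norm_num : (2 : ℝ) ≠ 0)]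
    congr 1
    have h := Int.toNat_of_nonneg (sub_nonneg.2 hm')
    omega
  have h2 := Int.floor_div_natCast (p.1 i / (2 : ℝ) ^ l) (2 ^ (m - l).toNat)
  rw [Nat.cast_pow, Nat.cast_pow, Nat.cast_ofNat, Nat.cast_ofNat] at h2
  rw [h1, ← div_div, h2]

private theorem log_bds {y : ℝ} (hy : 0 < y) : (2 : ℝ) ^ Int.log 2 y ≤ y ∧
    y < (2 : ℝ) ^ (Int.log 2 y + 1) := by
  have h1 := Int.zpow_log_le_self (b := 2) (r := y) (by norm_num) hy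
  have h2 := Int.lt_zpow_succ_log_self (b := 2) (by norm_num) y
  rw [Nat.cast_ofNat] at h1 h2
  exact ⟨h1, h2⟩

private theorem floor_near {a b : ℝ} (h : |a - b| ≤ 1) : |⌊a⌋ - ⌊b⌋| ≤ 1 := by
  have h1 := abs_le.1 h
  have h2 := Int.floor_le a
  have h3 := Int.lt_floor_add_one a
  have h4 := Int.floor_le b
  have h5 := Int.lt_floor_add_one b
  have h6 : ((⌊a⌋ : ℤ) : ℝ) < ((⌊b⌋ + 2 : ℤ) : ℝ) := by push_cast; linarith
  have h7 : ((⌊b⌋ : ℤ) : ℝ) < ((⌊a⌋ + 2 : ℤ) : ℝ) := by push_cast; linarith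
  have h8 := Int.cast_lt.1 h6
  have h9 := Int.cast_lt.1 h7
  rw [abs_le]
  constructor <;> omega

private theorem near_floor {a b : ℝ} (h : |⌊a⌋ - ⌊b⌋| ≤ 1) : |a - b| ≤ 2 := by
  have h1 := abs_le.1 h
  have h2 := Int.floor_le a
  have h3 := Int.lt_floor_add_one a
  have h4 := Int.floor_le b
  have h5 := Int.lt_floor_add_one b
  have h6 : ((⌊a⌋ : ℤ) : ℝ) ≤ ((⌊b⌋ + 1 : ℤ) : ℝ) := Int.cast_le.2 (by omega)
  have h7 : ((⌊b⌋ : ℤ) : ℝ) ≤ ((⌊a⌋ + 1 : ℤ) : ℝ) := Int.cast_le.2 (by omega)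
  push_cast at h6 h7
  rw [abs_le]
  constructor <;> linarith

private theorem level_le {y z : ℝ} (hy : 0 < y) (hz : 0 < z) {s : ℕ} (h : z ≤ (2 : ℝ) ^ s * y) :
    Int.log 2 z ≤ Int.log 2 y + s := by
  have h1 := log_bds hy
  have h2 := log_bds hz
  have h3 : (2 : ℝ) ^ Int.log 2 z < (2 : ℝ) ^ (Int.log 2 y + 1 + s) := by
    rw [zpow_add₀ (by norm_num : (2 : ℝ) ≠ 0) (Int.log 2 y + 1) (s : ℤ), zpow_natCast]
    calc (2 : ℝ) ^ Int.log 2 z ≤ z := h2.1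
      _ ≤ (2 : ℝ) ^ s * y := h
      _ < (2 : ℝ) ^ s * (2 : ℝ) ^ (Int.log 2 y + 1) := by
          exact mul_lt_mul_of_pos_left h1.2 (by positivity)
      _ = (2 : ℝ) ^ (Int.log 2 y + 1) * (2 : ℝ) ^ s := mul_comm _ _
  have h4 := (zpow_lt_zpow_iff_right₀ (by norm_num : (1 : ℝ) < 2)).1 h3
  omega

theorem near_of_hdist (d : ℕ) (C : ℝ) : ∃ a : ℕ, ∀ p q : (Fin d → ℝ) × ℝ, 0 < p.2 → 0 < q.2 →
    hdist p q ≤ C → NearT a (tile p) (tile q) := by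
  obtain ⟨s, hs⟩ := pow_unbounded_of_one_lt (4 * Real.sinh (C / 2) ^ 2 + 4) (by norm_num : (1 : ℝ) < 2)
  refine ⟨s + s, fun p q hp hq h => ?_⟩
  set K : ℝ := 4 * Real.sinh (C / 2) ^ 2 with hK
  have hK0 : 0 ≤ K := by positivity
  set A : ℝ := (∑ i, (p.1 i - q.1 i) ^ 2) + (p.2 - q.2) ^ 2 with hA
  have hA0 : 0 ≤ A := by positivity
  have hB : 0 < p.2 * q.2 := mul_pos hp hq
  have h1 : Real.arsinh (√A / (2 * √(p.2 * q.2))) ≤ Real.arsinh (Real.sinh (C / 2)) := by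
    rw [Real.arsinh_sinh]
    have h2 : 2 * Real.arsinh (√A / (2 * √(p.2 * q.2))) ≤ C := h
    linarith
  have h2 := Real.arsinh_le_arsinh.1 h1
  have hsB : 0 < √(p.2 * q.2) := Real.sqrt_pos.2 hB
  have h3 : √A ≤ Real.sinh (C / 2) * (2 * √(p.2 * q.2)) := (div_le_iff₀ (by positivity)).1 h2
  have h4 : A ≤ K * (p.2 * q.2) := by
    have h5 : √A ^ 2 ≤ (Real.sinh (C / 2) * (2 * √(p.2 * q.2))) ^ 2 :=
      pow_le_pow_left₀ (Real.sqrt_nonneg A) h3 2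
    rw [Real.sq_sqrt hA0] at h5
    have h6 : (Real.sinh (C / 2) * (2 * √(p.2 * q.2))) ^ 2 = K * (√(p.2 * q.2)) ^ 2 := by
      rw [hK]; ring
    rw [h6, Real.sq_sqrt hB.le] at h5
    exact h5
  have hsum : 0 ≤ ∑ i, (p.1 i - q.1 i) ^ 2 := Finset.sum_nonneg fun i _ => sq_nonneg _
  have h5 : (p.2 - q.2) ^ 2 ≤ K * (p.2 * q.2) := by
    have h6 : (p.2 - q.2) ^ 2 ≤ A := by rw [hA]; linarith
    exact h6.trans h4
  have h6 : ∀ i, (p.1 i - q.1 i) ^ 2 ≤ K * (p.2 * q.2) := by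
    intro i
    have h7 : (p.1 i - q.1 i) ^ 2 ≤ ∑ j, (p.1 j - q.1 j) ^ 2 :=
      Finset.single_le_sum (f := fun j => (p.1 j - q.1 j) ^ 2) (fun j _ => sq_nonneg _)
        (Finset.mem_univ i)
    have h8 : (p.1 i - q.1 i) ^ 2 ≤ A := by rw [hA]; nlinarith [sq_nonneg (p.2 - q.2)]
    exact h8.trans h4
  have hq' : q.2 ≤ (2 : ℝ) ^ s * p.2 := by
    have h7 : q.2 * q.2 ≤ q.2 * ((K + 2) * p.2) := by nlinarith [sq_nonneg p.2]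
    have h8 : q.2 ≤ (K + 2) * p.2 := le_of_mul_le_mul_left h7 hq
    nlinarith
  have hp' : p.2 ≤ (2 : ℝ) ^ s * q.2 := by
    have h7 : p.2 * p.2 ≤ p.2 * ((K + 2) * q.2) := by nlinarith [sq_nonneg q.2]
    have h8 : p.2 ≤ (K + 2) * q.2 := le_of_mul_le_mul_left h7 hp
    nlinarith
  have hl1 := level_le hp hq hq'
  have hl2 := level_le hq hp hp'
  have hbp := log_bds hp
  have hbq := log_bds hq
  have hM1 : Int.log 2 p.2 ≤ max (Int.log 2 p.2) (Int.log 2 q.2) := le_max_left _ _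
  have hM2 : Int.log 2 q.2 ≤ max (Int.log 2 p.2) (Int.log 2 q.2) := le_max_right _ _
  have hM3 : max (Int.log 2 p.2) (Int.log 2 q.2) ≤ Int.log 2 p.2 + s := max_le (by omega) hl1
  have hM4 : max (Int.log 2 p.2) (Int.log 2 q.2) ≤ Int.log 2 q.2 + s := max_le hl2 (by omega)
  set M : ℤ := max (Int.log 2 p.2) (Int.log 2 q.2) with hM
  have ht1 : (tile p).1 = Int.log 2 p.2 := rfl
  have ht2 : (tile q).1 = Int.log 2 q.2 := rfl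
  have hm1 : (tile p).1 ≤ M + s := by rw [ht1]; omega
  have hm2 : (tile q).1 ≤ M + s := by rw [ht2]; omega
  refine ⟨M + s, hm1, by rw [ht1]; push_cast; omega, hm2, by rw [ht2]; push_cast; omega, ?_⟩
  rw [nrm_le_iff]
  intro i
  rw [Pi.sub_apply, up_tile p hm1, up_tile q hm2, Nat.cast_one]
  refine floor_near ?_
  have h2m : (0 : ℝ) < (2 : ℝ) ^ (M + s) := by positivity
  rw [← sub_div, abs_div, abs_of_pos h2m, div_le_one h2m]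
  have hpM : p.2 ≤ (2 : ℝ) ^ (M + 1) := hbp.2.le.trans
    (zpow_le_zpow_right₀ (by norm_num) (by omega))
  have hqM : q.2 ≤ (2 : ℝ) ^ (M + 1) := hbq.2.le.trans
    (zpow_le_zpow_right₀ (by norm_num) (by omega))
  have h2M : (0 : ℝ) < (2 : ℝ) ^ M := by positivity
  have he1 : (2 : ℝ) ^ (M + 1) = (2 : ℝ) ^ M * 2 := zpow_add_one₀ (by norm_num) M
  have he2 : (2 : ℝ) ^ (M + s) = (2 : ℝ) ^ M * 2 ^ s := by
    rw [zpow_add₀ (by norm_num : (2 : ℝ) ≠ 0), zpow_natCast]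
  rw [he1] at hpM hqM
  have h7 : p.2 * q.2 ≤ ((2 : ℝ) ^ M * 2) * ((2 : ℝ) ^ M * 2) :=
    mul_le_mul hpM hqM hq.le (by positivity)
  have h8 : 4 * K ≤ (2 : ℝ) ^ s * (2 : ℝ) ^ s := by
    have h9 : (K + 4) * (K + 4) ≤ (2 : ℝ) ^ s * (2 : ℝ) ^ s :=
      mul_le_mul hs.le hs.le (by positivity) (by positivity)
    nlinarith
  refine abs_le_of_sq_le_sq ?_ h2m.le
  calc (p.1 i - q.1 i) ^ 2 ≤ K * (p.2 * q.2) := h6 i
    _ ≤ K * (((2 : ℝ) ^ M * 2) * ((2 : ℝ) ^ M * 2)) := mul_le_mul_of_nonneg_left h7 hK0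
    _ = (4 * K) * ((2 : ℝ) ^ M * (2 : ℝ) ^ M) := by ring
    _ ≤ ((2 : ℝ) ^ s * (2 : ℝ) ^ s) * ((2 : ℝ) ^ M * (2 : ℝ) ^ M) :=
        mul_le_mul_of_nonneg_right h8 (by positivity)
    _ = ((2 : ℝ) ^ (M + s)) ^ 2 := by rw [he2]; ring

theorem hdist_of_near (d a : ℕ) : ∃ C : ℝ, ∀ p q : (Fin d → ℝ) × ℝ, 0 < p.2 → 0 < q.2 →
    NearT a (tile p) (tile q) → hdist p q ≤ C := by
  refine ⟨2 * Real.arsinh (√(4 * (d + 1) * 4 ^ a) / 2), fun p q hp hq h => ?_⟩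
  obtain ⟨m, h1, h2, h3, h4, h5⟩ := h
  have ht1 : (tile p).1 = Int.log 2 p.2 := rfl
  have ht2 : (tile q).1 = Int.log 2 q.2 := rfl
  rw [nrm_le_iff] at h5
  have h2m : (0 : ℝ) < (2 : ℝ) ^ m := by positivity
  have hbp := log_bds hp
  have hbq := log_bds hq
  rw [← ht1] at hbp
  rw [← ht2] at hbq
  have h6 : ∀ i, (p.1 i - q.1 i) ^ 2 ≤ 4 * ((2 : ℝ) ^ m) ^ 2 := by
    intro i
    have h7 := h5 i
    rw [Pi.sub_apply, up_tile p h1, up_tile q h3, Nat.cast_one] at h7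
    have h8 := near_floor h7
    rw [← sub_div, abs_div, abs_of_pos h2m, div_le_iff₀ h2m] at h8
    have h9 : |p.1 i - q.1 i| ^ 2 ≤ (2 * (2 : ℝ) ^ m) ^ 2 := pow_le_pow_left₀ (abs_nonneg _) h8 2
    rw [sq_abs] at h9
    linarith [show (2 * (2 : ℝ) ^ m) ^ 2 = 4 * ((2 : ℝ) ^ m) ^ 2 by ring]
  have he : (2 : ℝ) ^ (m + 1) = (2 : ℝ) ^ m * 2 := zpow_add_one₀ (by norm_num) m
  have hpM : p.2 ≤ (2 : ℝ) ^ m * 2 := by
    rw [← he]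
    exact hbp.2.le.trans (zpow_le_zpow_right₀ (by norm_num) (by omega))
  have hqM : q.2 ≤ (2 : ℝ) ^ m * 2 := by
    rw [← he]
    exact hbq.2.le.trans (zpow_le_zpow_right₀ (by norm_num) (by omega))
  have h7 : (p.2 - q.2) ^ 2 ≤ 4 * ((2 : ℝ) ^ m) ^ 2 := by
    have h8 : |p.2 - q.2| ≤ 2 * (2 : ℝ) ^ m := by
      rw [abs_le]; constructor <;> linarith
    have h9 : |p.2 - q.2| ^ 2 ≤ (2 * (2 : ℝ) ^ m) ^ 2 := pow_le_pow_left₀ (abs_nonneg _) h8 2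
    rw [sq_abs] at h9
    linarith [show (2 * (2 : ℝ) ^ m) ^ 2 = 4 * ((2 : ℝ) ^ m) ^ 2 by ring]
  have h8 : (∑ i, (p.1 i - q.1 i) ^ 2) ≤ d * (4 * ((2 : ℝ) ^ m) ^ 2) := by
    calc (∑ i, (p.1 i - q.1 i) ^ 2) ≤ ∑ _i : Fin d, 4 * ((2 : ℝ) ^ m) ^ 2 :=
          Finset.sum_le_sum fun i _ => h6 i
      _ = d * (4 * ((2 : ℝ) ^ m) ^ 2) := by
          rw [Finset.sum_const, Finset.card_univ, Fintype.card_fin, nsmul_eq_mul]
  have hmp : (2 : ℝ) ^ m ≤ 2 ^ a * p.2 := by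
    have h9 : (2 : ℝ) ^ m ≤ (2 : ℝ) ^ ((tile p).1 + a) := zpow_le_zpow_right₀ (by norm_num) h2
    rw [zpow_add₀ (by norm_num : (2 : ℝ) ≠ 0), zpow_natCast] at h9
    refine h9.trans ?_
    rw [mul_comm]
    exact mul_le_mul_of_nonneg_left hbp.1 (by positivity)
  have hmq : (2 : ℝ) ^ m ≤ 2 ^ a * q.2 := by
    have h9 : (2 : ℝ) ^ m ≤ (2 : ℝ) ^ ((tile q).1 + a) := zpow_le_zpow_right₀ (by norm_num) h4
    rw [zpow_add₀ (by norm_num : (2 : ℝ) ≠ 0), zpow_natCast] at h9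
    refine h9.trans ?_
    rw [mul_comm]
    exact mul_le_mul_of_nonneg_left hbq.1 (by positivity)
  have h9 : ((2 : ℝ) ^ m) ^ 2 ≤ 4 ^ a * (p.2 * q.2) := by
    have h10 : (2 : ℝ) ^ m * (2 : ℝ) ^ m ≤ (2 ^ a * p.2) * (2 ^ a * q.2) :=
      mul_le_mul hmp hmq h2m.le (by positivity)
    have h11 : (4 : ℝ) ^ a = 2 ^ a * 2 ^ a := by rw [← mul_pow]; norm_num
    calc ((2 : ℝ) ^ m) ^ 2 = (2 : ℝ) ^ m * (2 : ℝ) ^ m := sq _
      _ ≤ (2 ^ a * p.2) * (2 ^ a * q.2) := h10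
      _ = 4 ^ a * (p.2 * q.2) := by rw [h11]; ring
  have hB : 0 < p.2 * q.2 := mul_pos hp hq
  have h10 : (∑ i, (p.1 i - q.1 i) ^ 2) + (p.2 - q.2) ^ 2 ≤ (4 * (d + 1) * 4 ^ a) * (p.2 * q.2) := by
    calc (∑ i, (p.1 i - q.1 i) ^ 2) + (p.2 - q.2) ^ 2
        ≤ d * (4 * ((2 : ℝ) ^ m) ^ 2) + 4 * ((2 : ℝ) ^ m) ^ 2 := add_le_add h8 h7
      _ = 4 * ((d : ℝ) + 1) * ((2 : ℝ) ^ m) ^ 2 := by ring
      _ ≤ 4 * ((d : ℝ) + 1) * (4 ^ a * (p.2 * q.2)) :=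
          mul_le_mul_of_nonneg_left h9 (by positivity)
      _ = (4 * (d + 1) * 4 ^ a) * (p.2 * q.2) := by ring
  have hsB : 0 < √(p.2 * q.2) := Real.sqrt_pos.2 hB
  have h11 : √((∑ i, (p.1 i - q.1 i) ^ 2) + (p.2 - q.2) ^ 2) ≤
      √(4 * (d + 1) * 4 ^ a) * √(p.2 * q.2) := by
    rw [← Real.sqrt_mul (by positivity)]
    exact Real.sqrt_le_sqrt h10
  have h12 : √((∑ i, (p.1 i - q.1 i) ^ 2) + (p.2 - q.2) ^ 2) / (2 * √(p.2 * q.2)) ≤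
      √(4 * (d + 1) * 4 ^ a) / 2 := by
    rw [div_le_iff₀ (by positivity)]
    calc √((∑ i, (p.1 i - q.1 i) ^ 2) + (p.2 - q.2) ^ 2)
        ≤ √(4 * (d + 1) * 4 ^ a) * √(p.2 * q.2) := h11
      _ = √(4 * (d + 1) * 4 ^ a) / 2 * (2 * √(p.2 * q.2)) := by ring
  have h13 := Real.arsinh_le_arsinh.2 h12
  change 2 * Real.arsinh (√((∑ i, (p.1 i - q.1 i) ^ 2) + (p.2 - q.2) ^ 2) / (2 * √(p.2 * q.2))) ≤ _
  linarith

end Pool.Agent.Helper80.HY
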