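import Pool.Agent.Helper80.HY.Defs

/-!
# HY-13: windows

PROOF. `iter_lev`: `lev (p^[a] b) = lev b + a`, `cos (p^[a] b) = cos b` (induction).
`win_card`: the map `(i, a) ↦ p^[a] (bl (u i))` is injective on `Fin m × Fin k`: if `p^[a] (bl (u i)) = p^[b] (bl (u j))` then applying `cos`: `(u i : G ⧸ L) = (u j : G ⧸ L)`, so `i = j`, and applying `lev`: `a = b`. `Finset.card_image_of_injective`.
`win_finite`: let `X = {x | ∃ a ≤ k, p^[a] (bl x) = b}` (finite, at most `C * e ^ k` elements). If `b ∈ win β k u` then `u i ∈ X` for some `i`, and `u j = u i * d j` with `d j = (u i)⁻¹ * u j ∈ D` for all `j`. So the set is contained in the image of the finite type `Fin m × X × (Fin m → D)` under `(i, x, d) ↦ fun j => x * d j`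
(similar to `windows_finite` in `Pool/Agent/Helper65/FP/MarksCount.lean`).
-/

set_option autoImplicit false

namespace Pool.Agent.Helper80.HY

variable {G : Type*} [Group G] {L : Subgroup G} {T : Finset G} {V : Set G} {B : Type*}

theorem Blk.iter (β : Blk L T V B) (b : B) (a : ℕ) :
    β.lev (β.p^[a] b) = β.lev b + a ∧ β.cos (β.p^[a] b) = β.cos b := by
  induction a with
  | zero => simp
  | succ n ih =>
    rw [Function.iterate_succ_apply', β.lev_p, β.cos_p, ih.1, ih.2]
    refine ⟨?_, rfl⟩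
    push_cast
    ring

open Classical in
/-- the window of the family `u` -/
noncomputable def win (β : Blk L T V B) (k : ℕ) {m : ℕ} (u : Fin m → G) : Finset B :=
  (Finset.univ : Finset (Fin m × Fin k)).image fun p => β.p^[(p.2 : ℕ)] (β.bl (u p.1))

theorem win_card (β : Blk L T V B) (k m : ℕ) (u : Fin m → G)
    (hu : ∀ i j, i ≠ j → (u i : G ⧸ L) ≠ (u j : G ⧸ L)) : (win β k u).card = k * m := by
  classical
  have hinj : Function.Injective fun p : Fin m × Fin k => β.p^[(p.2 : ℕ)] (β.bl (u p.1)) := by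
    rintro ⟨i, a⟩ ⟨j, b⟩ h
    simp only at h
    have h1 := congrArg β.cos h
    rw [(β.iter _ _).2, (β.iter _ _).2, β.cos_bl, β.cos_bl] at h1
    have hij : i = j := by
      by_contra hne
      exact hu i j hne h1
    subst hij
    have h2 := congrArg β.lev h
    rw [(β.iter _ _).1, (β.iter _ _).1] at h2
    have h3 : a = b := by
      apply Fin.ext
      omega
    rw [h3]
  unfold win
  rw [Finset.card_image_of_injective _ hinj, Finset.card_univ, Fintype.card_prod, Fintype.card_fin,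
    Fintype.card_fin, Nat.mul_comm]

theorem win_finite (β : Blk L T V B) (D : Finset G) (k m : ℕ) (b : B) :
    {u : Fin m → G | (∀ i j, (u i)⁻¹ * u j ∈ D) ∧ b ∈ win β k u}.Finite ∧
    {u : Fin m → G | (∀ i j, (u i)⁻¹ * u j ∈ D) ∧ b ∈ win β k u}.ncard ≤
      m * (β.C * β.e ^ k) * D.card ^ m := by
  classical
  obtain ⟨X, hX⟩ : ∃ X : Set G, X = {x | ∃ a ≤ k, β.p^[a] (β.bl x) = b} := ⟨_, rfl⟩
  have hXf : X.Finite := by rw [hX]; exact β.fin k b
  have hXc : X.ncard ≤ β.C * β.e ^ k := by rw [hX]; exact β.card k b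
  haveI : Fintype X := hXf.fintype
  obtain ⟨Φ, hΦ⟩ : ∃ Φ : Fin m × X × (Fin m → D) → (Fin m → G),
      ∀ t j, Φ t j = (t.2.1 : G) * ((t.2.2 j : D) : G) :=
    ⟨fun t j => (t.2.1 : G) * ((t.2.2 j : D) : G), fun _ _ => rfl⟩
  have hsub : {u : Fin m → G | (∀ i j, (u i)⁻¹ * u j ∈ D) ∧ b ∈ win β k u} ⊆ Φ '' Set.univ := by
    rintro u ⟨h2, h3⟩
    obtain ⟨⟨i, a⟩, -, hv⟩ := Finset.mem_image.1 h3
    simp only at hv
    have hx : u i ∈ X := by
      rw [hX]
      exact ⟨a, a.2.le, hv⟩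
    refine ⟨(i, ⟨u i, hx⟩, fun j => ⟨_, h2 i j⟩), Set.mem_univ _, ?_⟩
    funext j
    rw [hΦ]
    exact mul_inv_cancel_left (u i) (u j)
  refine ⟨(Set.finite_univ.image Φ).subset hsub, ?_⟩
  calc {u : Fin m → G | (∀ i j, (u i)⁻¹ * u j ∈ D) ∧ b ∈ win β k u}.ncard
      ≤ (Φ '' Set.univ).ncard := Set.ncard_le_ncard hsub (Set.finite_univ.image Φ)
    _ ≤ (Set.univ : Set (Fin m × X × (Fin m → D))).ncard := Set.ncard_image_le Set.finite_univ
    _ = m * X.ncard * D.card ^ m := by
      rw [Set.ncard_univ, Nat.card_eq_fintype_card, Fintype.card_prod, Fintype.card_prod,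
        Fintype.card_fin, Fintype.card_fun, Fintype.card_coe, Fintype.card_fin,
        ← Nat.card_eq_fintype_card (α := X), Nat.card_coe_set_eq]
      ring
    _ ≤ m * (β.C * β.e ^ k) * D.card ^ m :=
      Nat.mul_le_mul_right _ (Nat.mul_le_mul_left _ hXc)

end Pool.Agent.Helper80.HY
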